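import Pool.Agent.Lib_helper26.TQ.Defs
import Pool.Agent.Lib_helper45.PPQ2.Alt

/-!
# PP mode and parity mode are PSPACE modes
-/

set_option autoImplicit false
set_option linter.unusedSectionVars false
set_option linter.unusedSimpArgs false

namespace Pool.Agent.Lib_helper26.TQ

open Finset
open Pool.Agent.Lib_helper45.PPQ2 (Game game_congr game_true game_false val exists_val qq length_qq
  dec evl cn cn_zero cn_succ cn_le game_count)

variable {I A V : Type}

theorem alt_iff (qs : List Bool) : ∀ R : List Bool → Prop, Alt qs R ↔ Game qs R := by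
  induction qs with
  | nil => intro R; exact Iff.rfl
  | cons b qs ih =>
    intro R
    cases b
    · exact forall_congr' fun b => ih _
    · exact exists_congr fun b => ih _

theorem alt_congr {qs : List Bool} {R R' : List Bool → Prop} (h : ∀ w, R w ↔ R' w) :
    Alt qs R ↔ Alt qs R' := by
  rw [alt_iff, alt_iff, game_congr h]

/-- other accepting states -/
def Mach.compl (M : Mach I A V) : Mach I A V where
  start := M.start
  query := M.query
  next := M.next
  acc := fun v => ¬ M.acc v

theorem compl_state (M : Mach I A V) (x : I → A) (t : ℕ) : M.compl.state x t = M.state x t := by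
  induction t with
  | zero => rfl
  | succ t ih =>
    show M.next t (M.compl.state x t) (x (M.query t (M.compl.state x t))) = _
    rw [ih]
    rfl

theorem compl_accepts (M : Mach I A V) (T : ℕ) (x : I → A) :
    M.compl.Accepts T x ↔ ¬ M.Accepts T x := by
  show ¬ M.acc (M.compl.state x T) ↔ _
  rw [compl_state]
  rfl

/-- a constant machine -/
def constM (M : Mach I A V) (b : Prop) : Mach I A V where
  start := M.start
  query := M.query
  next := fun _ _ _ => M.start
  acc := fun _ => b

theorem constM_accepts (M : Mach I A V) (b : Prop) (T : ℕ) (x : I → A) :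
    (constM M b).Accepts T x ↔ b := Iff.rfl

/-- counting with numbers -/
theorem card_eq_cn {W : ℕ} (p : Fin (2 ^ W) → Prop) (p' : ℕ → Prop)
    (h : ∀ i : Fin (2 ^ W), p' i.val ↔ p i) : Nat.card {w // p w} = cn p' W 0 := by
  classical
  unfold cn
  rw [Nat.card_eq_fintype_card, Fintype.card_subtype]
  simp only [zero_mul, zero_add]
  refine card_bij (fun y _ => (y : ℕ)) ?_ ?_ ?_
  · intro y hy
    rw [mem_filter] at hy
    rw [mem_filter, mem_range]
    exact ⟨y.2, (h y).2 hy.2⟩
  · intro y _ y' _ h
    exact Fin.ext h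
  · intro j hj
    rw [mem_filter, mem_range] at hj
    exact ⟨⟨j, hj.1⟩, by rw [mem_filter]; exact ⟨mem_univ _, (h ⟨j, hj.1⟩).1 hj.2⟩, rfl⟩

theorem pp_sub_pspace {T W : ℕ} {L : (I → A) → Prop} (h : InPP I A T V W L) :
    InPSPACE I A T V (W * (W + 3) / 2) L := by
  classical
  obtain ⟨P, hL⟩ := h
  have h0 : 0 < 2 ^ W := by positivity
  let B : List Bool → Mach I A V := fun w =>
    match dec W (2 ^ W / 2 + 1) 0 w with
    | Sum.inl b => constM (P ⟨0, h0⟩) (b = true)
    | Sum.inr j => if h : j < 2 ^ W then P ⟨j, h⟩ else constM (P ⟨0, h0⟩) False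
  refine ⟨qq W, B, ?_, ?_⟩
  · have := length_qq W
    omega
  · intro z
    let p : ℕ → Prop := fun j => ∃ h : j < 2 ^ W, (P ⟨j, h⟩).Accepts T z
    have h1 : ∀ w, (B w).Accepts T z ↔ evl p (dec W (2 ^ W / 2 + 1) 0 w) := by
      intro w
      simp only [B]
      rcases dec W (2 ^ W / 2 + 1) 0 w with b | j
      · exact constM_accepts _ _ _ _
      · simp only [evl, p]
        split_ifs with h
        · exact ⟨fun h' => ⟨h, h'⟩, fun ⟨_, h'⟩ => h'⟩
        · rw [constM_accepts]
          simp [h]
    rw [alt_iff, game_congr h1, game_count, hL z]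
    have h2 : cn p W 0 = Nat.card {w // (P w).Accepts T z} := by
      symm
      refine card_eq_cn _ p fun i => ?_
      exact ⟨fun ⟨_, h'⟩ => h', fun h' => ⟨i.2, h'⟩⟩
    rw [h2]
    omega

/-- the quantifiers of the parity game -/
def qp : ℕ → List Bool
  | 0 => []
  | h + 1 => true :: false :: qp h

theorem length_qp (h : ℕ) : (qp h).length = 2 * h := by
  induction h with
  | zero => rfl
  | succ h ih =>
    show ((qp h).length + 1) + 1 = _
    rw [ih]
    ring

/-- the end of the parity game: a number and its claimed parity -/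
def dpar : ℕ → ℕ → Bool → List Bool → ℕ × Bool
  | 0, j, b, _ => (j, b)
  | h + 1, j, b, c :: true :: w => dpar h (2 * j + 1) (xor b c) w
  | h + 1, j, _, c :: false :: w => dpar h (2 * j) c w
  | _ + 1, j, b, _ => (j, b)

theorem game_parity (p : ℕ → Prop) (h : ℕ) : ∀ (j : ℕ) (b : Bool),
    Alt (qp h) (fun w => (p (dpar h j b w).1 ↔ (dpar h j b w).2 = true)) ↔
      (Odd (cn p h j) ↔ b = true) := by
  induction h with
  | zero =>
    intro j b
    show (p j ↔ b = true) ↔ _
    by_cases hp : p j
    · rw [(cn_zero p j).1 hp]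
      simp [hp]
    · rw [(cn_zero p j).2 hp]
      simp [hp]
  | succ h ih =>
    intro j b
    have h1 : Alt (qp (h + 1)) (fun w => (p (dpar (h + 1) j b w).1 ↔
        (dpar (h + 1) j b w).2 = true)) ↔ ∃ c : Bool,
        (Odd (cn p h (2 * j)) ↔ c = true) ∧ (Odd (cn p h (2 * j + 1)) ↔ (xor b c) = true) := by
      show (∃ c, ∀ d, Alt (qp h) fun w => (p (dpar (h + 1) j b (c :: d :: w)).1 ↔
        (dpar (h + 1) j b (c :: d :: w)).2 = true)) ↔ _
      refine exists_congr fun c => ?_
      rw [Bool.forall_bool]
      refine and_congr ?_ ?_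
      · exact ih (2 * j) c
      · exact ih (2 * j + 1) (xor b c)
    rw [h1, cn_succ, Nat.odd_add]
    rw [← Nat.not_odd_iff_even]
    by_cases h2 : Odd (cn p h (2 * j)) <;> by_cases h3 : Odd (cn p h (2 * j + 1)) <;>
      cases b <;> simp [h2, h3]

theorem parity_sub_pspace {T W : ℕ} {L : (I → A) → Prop} (h : InParity I A T V W L) :
    InPSPACE I A T V (2 * W) L := by
  classical
  obtain ⟨P, hL⟩ := h
  have h0 : 0 < 2 ^ W := by positivity
  let Q : ℕ → Mach I A V := fun j => if h : j < 2 ^ W then P ⟨j, h⟩ else constM (P ⟨0, h0⟩) False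
  let B : List Bool → Mach I A V := fun w =>
    if (dpar W 0 true w).2 = true then Q (dpar W 0 true w).1 else (Q (dpar W 0 true w).1).compl
  refine ⟨qp W, B, (length_qp W).le, fun z => ?_⟩
  let p : ℕ → Prop := fun j => (Q j).Accepts T z
  have h1 : ∀ w, (B w).Accepts T z ↔ (p (dpar W 0 true w).1 ↔ (dpar W 0 true w).2 = true) := by
    intro w
    simp only [B, p]
    split_ifs with hb
    · simp [hb]
    · rw [compl_accepts]
      simp [hb]
  rw [alt_congr h1, game_parity, hL z]
  have h2 : cn p W 0 = Nat.card {w // (P w).Accepts T z} := by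
    symm
    refine card_eq_cn _ p fun i => ?_
    simp only [p, Q]
    rw [dif_pos i.2]
  rw [h2]
  simp

end Pool.Agent.Lib_helper26.TQ
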