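import Mathlib

/-!
# The game with a fixed string of quantifiers over bits
-/

set_option autoImplicit false

namespace Pool.Agent.Lib_helper26.TQ

/-- The game with the quantifiers of the list (`true`: there is a bit, `false`: for all bits) about
the list of the chosen bits. -/
def Alt : List Bool → (List Bool → Prop) → Prop
  | [], R => R []
  | true :: qs, R => ∃ b, Alt qs (fun w => R (b :: w))
  | false :: qs, R => ∀ b, Alt qs (fun w => R (b :: w))

end Pool.Agent.Lib_helper26.TQ
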