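import Pool.Agent.Lib_helper26.TQ.Rect2

/-!
# Character sums of the quadratic form over sets of inputs closed under mixing, final form
-/

set_option autoImplicit false
set_option linter.unusedSectionVars false

namespace Pool.Agent.Lib_helper26.TQ

open Finset
open Pool.Agent.Lib_helper26.TS (fil mem_fil fil_congr card_fixed)

/-- closed under mixing -/
def Closed {A I : Type} [DecidableEq I] (P Q : Finset I) (Z : (I → A) → Prop) : Prop :=
  ∀ x y, Z x → Z y → (∀ i, i ∉ P → i ∉ Q → x i = y i) → Z (fun i => if i ∈ P then x i else y i)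

theorem Closed.symm {A I : Type} [DecidableEq I] {P Q : Finset I} (hPQ : Disjoint P Q)
    {Z : (I → A) → Prop} (h : Closed P Q Z) : Closed Q P Z := by
  intro x y hx hy hxy
  have h1 := h y x hy hx fun i hi hi' => (hxy i hi' hi).symm
  have h2 : (fun i => if i ∈ Q then x i else y i) = (fun i => if i ∈ P then y i else x i) := by
    funext i
    by_cases hP : i ∈ P
    · rw [if_pos hP, if_neg (Finset.disjoint_left.1 hPQ hP)]
    · rw [if_neg hP]
      by_cases hQ : i ∈ Q
      · rw [if_pos hQ]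
      · rw [if_neg hQ, hxy i hQ hP]
  rw [h2]
  exact h1

variable {K : Type} [Field K] [Fintype K] [DecidableEq K] {n : ℕ}

theorem class_aux {ψ : K → ℝ} (hψ : IsChar ψ) {α : Fin n → K} (hα : Function.Injective α)
    (h2 : ∀ x : K, x + x = 0) (A B : Finset (Fin n)) (hAB : Disjoint A B) (hc : B.card ≤ A.card)
    (Z : (Fin n → K) → Prop) (hZ : Closed A B Z) :
    (∑ z ∈ fil Z, ψ (quad α z)) ^ 2 * (Fintype.card K : ℝ) ^ B.card ≤
      ((Fintype.card K : ℝ) ^ n) ^ 2 := by
  classical
  set X : (Fin n → K) → ℝ := fun z => if ∃ z', Z z' ∧ ∀ i, i ∉ B → z' i = z i then 1 else 0 with hX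
  set Y : (Fin n → K) → ℝ := fun z => if ∃ z', Z z' ∧ ∀ i, i ∉ A → z' i = z i then 1 else 0 with hY
  have key : ∀ z, Z z ↔ (∃ z', Z z' ∧ ∀ i, i ∉ B → z' i = z i) ∧
      (∃ z', Z z' ∧ ∀ i, i ∉ A → z' i = z i) := by
    intro z
    constructor
    · exact fun h => ⟨⟨z, h, fun _ _ => rfl⟩, ⟨z, h, fun _ _ => rfl⟩⟩
    · rintro ⟨⟨x, hx, hxz⟩, ⟨y, hy, hyz⟩⟩
      have h1 := hZ x y hx hy fun i hi hi' => (hxz i hi').trans (hyz i hi).symm
      have h3 : (fun i => if i ∈ A then x i else y i) = z := by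
        funext i
        by_cases hi : i ∈ A
        · rw [if_pos hi, hxz i (Finset.disjoint_left.1 hAB hi)]
        · rw [if_neg hi, hyz i hi]
      rwa [h3] at h1
  have h4 := one_side hψ hα h2 A B hAB hc X Y ?_ ?_ ?_ ?_
  · have h5 : ∑ z ∈ fil Z, ψ (quad α z) = ∑ z, X z * (Y z * ψ (quad α z)) := by
      have h6 : fil Z = univ.filter Z := by
        ext z
        rw [mem_fil, mem_filter]
        exact ⟨fun h => ⟨mem_univ _, h⟩, fun h => h.2⟩
      rw [h6, Finset.sum_filter]
      refine Finset.sum_congr rfl fun z _ => ?_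
      rw [hX, hY]
      simp only
      by_cases hz : Z z
      · have := (key z).1 hz
        rw [if_pos hz, if_pos this.1, if_pos this.2, one_mul, one_mul]
      · rw [if_neg hz]
        by_cases h7 : ∃ z', Z z' ∧ ∀ i, i ∉ B → z' i = z i
        · have h8 : ¬ ∃ z', Z z' ∧ ∀ i, i ∉ A → z' i = z i := fun h8 => hz ((key z).2 ⟨h7, h8⟩)
          rw [if_neg h8, zero_mul, mul_zero]
        · rw [if_neg h7, zero_mul]
    rw [h5]
    exact h4
  · intro c y
    rw [hX]
    simp only
    congr 1
    refine propext (exists_congr fun z' => and_congr Iff.rfl (forall₂_congr fun i hi => ?_))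
    unfold mix
    rw [if_neg hi]
  · intro z
    rw [hX]
    simp only
    split_ifs <;> simp
  · intro z
    rw [hY]
    simp only
    split_ifs <;> simp
  · intro z x hx
    rw [hY]
    simp only
    congr 1
    refine propext (exists_congr fun z' => and_congr Iff.rfl (forall₂_congr fun i hi => ?_))
    rw [Pi.add_apply, hx i hi, zero_add]

theorem class_bound {ψ : K → ℝ} (hψ : IsChar ψ) {α : Fin n → K} (hα : Function.Injective α)
    (h2 : ∀ x : K, x + x = 0) (A B : Finset (Fin n)) (hAB : Disjoint A B)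
    (Z : (Fin n → K) → Prop) (hZ : Closed A B Z) :
    |∑ z ∈ fil Z, ψ (quad α z)| ≤ (Fintype.card K : ℝ) ^ n *
      Real.exp (-(Real.log (Fintype.card K) / 2 * (min A.card B.card : ℕ))) := by
  have hq0 : (0:ℝ) < Fintype.card K := by exact_mod_cast Fintype.card_pos
  have h1 : (∑ z ∈ fil Z, ψ (quad α z)) ^ 2 * (Fintype.card K : ℝ) ^ (min A.card B.card) ≤
      ((Fintype.card K : ℝ) ^ n) ^ 2 := by
    rcases le_total B.card A.card with h | h
    · rw [min_eq_right h]
      exact class_aux hψ hα h2 A B hAB h Z hZ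
    · rw [min_eq_left h]
      exact class_aux hψ hα h2 B A hAB.symm h Z (hZ.symm hAB)
  set m := min A.card B.card with hm
  set S := ∑ z ∈ fil Z, ψ (quad α z) with hS
  have h3 : S ^ 2 ≤ ((Fintype.card K : ℝ) ^ n *
      Real.exp (-(Real.log (Fintype.card K) / 2 * (m : ℕ)))) ^ 2 := by
    have h4 : (Real.exp (-(Real.log (Fintype.card K) / 2 * (m : ℕ)))) ^ 2 *
        (Fintype.card K : ℝ) ^ m = 1 := by
      rw [← Real.exp_nat_mul]
      nth_rewrite 2 [← Real.exp_log hq0]
      rw [← Real.exp_nat_mul, ← Real.exp_add, ← Real.exp_zero]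
      congr 1
      push_cast
      ring
    have h5 : (0:ℝ) < (Fintype.card K : ℝ) ^ m := by positivity
    refine le_of_mul_le_mul_right ?_ h5
    rw [mul_pow, mul_assoc, h4, mul_one]
    exact h1
  exact abs_le_of_sq_le_sq h3 (by positivity)

end Pool.Agent.Lib_helper26.TQ
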