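import Pool.Agent.Lib_helper26.TS.Hits

/-!
# Two random colours of the segments and the cells

`S e` is the set of segments in which the cell `e` is read. Every segment and every cell gets a
random colour. A cell is in `inC c` if it and all its segments have the colour `c`.
-/

set_option autoImplicit false
set_option linter.unusedSectionVars false

namespace Pool.Agent.Lib_helper26.TQ

open Finset
open Pool.Agent.Lib_helper26.TS (fil mem_fil fil_congr card_fixed cnt cnt_diff mcd_upper mcd_lower)

variable {r : ℕ} {I : Type}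

/-- the sample space -/
abbrev Oc (r : ℕ) (I : Type) : Type := (Fin r ⊕ I) → Bool

/-- the cell and all its segments have colour `c` -/
def inC (c : Bool) (S : I → Finset (Fin r)) (ω : Oc r I) (e : I) : Prop :=
  ω (Sum.inr e) = c ∧ ∀ j ∈ S e, ω (Sum.inl j) = c

variable [Fintype I] [DecidableEq I]

theorem card_inC (c : Bool) (S : I → Finset (Fin r)) (e : I) :
    (fil fun ω : Oc r I => inC c S ω e).card * 2 ^ ((S e).card + 1) =
      2 ^ Fintype.card (Fin r ⊕ I) := by
  set T : Finset (Fin r ⊕ I) := insert (Sum.inr e) ((S e).map ⟨Sum.inl, Sum.inl_injective⟩) with hT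
  have hTc : T.card = (S e).card + 1 := by
    rw [hT, card_insert_of_notMem, card_map]
    intro h
    obtain ⟨j, _, hj⟩ := mem_map.1 h
    exact Sum.inl_ne_inr hj
  have h := card_fixed T (fun _ : Fin r ⊕ I => c)
  rw [hTc, Fintype.card_bool] at h
  rw [← h]
  congr 2
  refine fil_congr fun ω => ?_
  unfold inC
  rw [hT]
  constructor
  · rintro ⟨h1, h2⟩ i hi
    rcases mem_insert.1 hi with rfl | hi
    · exact h1
    · obtain ⟨j, hj, rfl⟩ := mem_map.1 hi
      exact h2 j hj
  · intro h
    exact ⟨h _ (mem_insert_self _ _), fun j hj => h _ (mem_insert_of_mem (mem_map.2 ⟨j, hj, rfl⟩))⟩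

/-- the expected number of cells of one colour -/
noncomputable def mean (S : I → Finset (Fin r)) : ℝ := ∑ e, (1 / 2 : ℝ) ^ ((S e).card + 1)

theorem mean_nonneg (S : I → Finset (Fin r)) : 0 ≤ mean S :=
  Finset.sum_nonneg fun _ _ => by positivity

/-- number of cells of the colour -/
noncomputable def nC (c : Bool) (S : I → Finset (Fin r)) (ω : Oc r I) : ℝ :=
  ((fil fun e => inC c S ω e).card : ℝ)

theorem sum_nC (c : Bool) (S : I → Finset (Fin r)) :
    ∑ ω : Oc r I, nC c S ω = mean S * 2 ^ Fintype.card (Fin r ⊕ I) := by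
  classical
  have h1 : ∀ ω, nC c S ω = ∑ e, if inC c S ω e then (1:ℝ) else 0 := by
    intro ω
    unfold nC
    rw [← Finset.sum_filter, Finset.sum_const, nsmul_eq_mul, mul_one]
    congr 2
  simp only [h1]
  rw [Finset.sum_comm]
  unfold mean
  rw [Finset.sum_mul]
  refine Finset.sum_congr rfl fun e _ => ?_
  rw [← Finset.sum_filter, Finset.sum_const, nsmul_eq_mul, mul_one]
  have h := card_inC c S e
  have h' : ((fil fun ω : Oc r I => inC c S ω e).card : ℝ) * 2 ^ ((S e).card + 1) =
      2 ^ Fintype.card (Fin r ⊕ I) := by exact_mod_cast h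
  have h2 : (univ.filter fun ω : Oc r I => inC c S ω e) = fil fun ω : Oc r I => inC c S ω e := by
    ext ω
    rw [mem_fil, mem_filter]
    exact ⟨fun h => h.2, fun h => ⟨mem_univ _, h⟩⟩
  rw [h2, ← h', mul_comm (((fil fun ω : Oc r I => inC c S ω e).card : ℝ)), ← mul_assoc, ← mul_pow]
  norm_num

theorem nC_diff (c : Bool) (S : I → Finset (Fin r)) (ω ω' : Oc r I) (D : Finset I)
    (h : ∀ e, e ∉ D → (inC c S ω e ↔ inC c S ω' e)) : |nC c S ω - nC c S ω'| ≤ (D.card : ℝ) := by
  have h1 := cnt_diff (univ : Finset I) D (inC c S ω) (inC c S ω') h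
  unfold cnt at h1
  simp only [univ_inter] at h1
  exact h1

theorem nC_update (c : Bool) (S : I → Finset (Fin r)) (L : ℕ)
    (hL : ∀ j, (fil fun e => j ∈ S e).card ≤ L) (ω : Oc r I) (x : Fin r ⊕ I) (v : Bool) :
    |nC c S (Function.update ω x v) - nC c S ω| ≤
      (match x with
        | Sum.inl _ => (L : ℝ)
        | Sum.inr _ => 1) := by
  rcases x with j | e0
  · simp only
    refine (nC_diff c S _ _ (fil fun e => j ∈ S e) fun e he => ?_).trans (by exact_mod_cast hL j)
    rw [mem_fil] at he
    unfold inC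
    rw [Function.update_of_ne Sum.inr_ne_inl]
    refine and_congr Iff.rfl (forall₂_congr fun j' hj' => ?_)
    rw [Function.update_of_ne]
    intro h
    have : j' = j := Sum.inl_injective h
    exact he (this ▸ hj')
  · simp only
    refine (nC_diff c S _ _ {e0} fun e he => ?_).trans (by simp)
    rw [mem_singleton] at he
    unfold inC
    rw [Function.update_of_ne (fun h => he (Sum.inr_injective h))]
    refine and_congr Iff.rfl (forall₂_congr fun j' hj' => ?_)
    rw [Function.update_of_ne Sum.inl_ne_inr]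

/-- concentration of the number of cells of a colour -/
theorem conc (c : Bool) (S : I → Finset (Fin r)) (L : ℕ)
    (hL : ∀ j, (fil fun e => j ∈ S e).card ≤ L) (σ : ℝ) (hσ : 0 < σ)
    (hσ' : r * (L : ℝ) ^ 2 + Fintype.card I ≤ σ) :
    ((fil fun ω : Oc r I => nC c S ω ≤ mean S / 2 ∨ 3 / 2 * mean S ≤ nC c S ω).card : ℝ) ≤
      2 * (2 ^ Fintype.card (Fin r ⊕ I) * Real.exp (-(mean S ^ 2 / (8 * σ)))) := by
  classical
  have hm := mean_nonneg S
  have hc : ∑ x : Fin r ⊕ I, (match x with
        | Sum.inl _ => (L : ℝ)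
        | Sum.inr _ => 1) ^ 2 ≤ σ := by
    rw [Fintype.sum_sum_type]
    simpa using hσ'
  have hs := sum_nC c S
  have h1 := mcd_upper (κ := Bool) (fun ω : Oc r I => nC c S ω) _
    (fun ω x v => nC_update c S L hL ω x v) σ (mean S) (mean S / 2) hσ hc (by linarith)
    (by rw [hs, Fintype.card_bool]; norm_num)
  have h2 := mcd_lower (κ := Bool) (fun ω : Oc r I => nC c S ω) _
    (fun ω x v => nC_update c S L hL ω x v) σ (mean S) (mean S / 2) hσ hc (by linarith)
    (by rw [hs, Fintype.card_bool]; norm_num)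
  rw [Fintype.card_bool] at h1 h2
  have e1 : (mean S / 2) ^ 2 / (2 * σ) = mean S ^ 2 / (8 * σ) := by
    rw [div_pow, div_div]
    congr 1
    ring
  rw [e1] at h1 h2
  have hsub : (fil fun ω : Oc r I => nC c S ω ≤ mean S / 2 ∨ 3 / 2 * mean S ≤ nC c S ω) ⊆
      (univ.filter fun ω : Oc r I => nC c S ω ≤ mean S - mean S / 2) ∪
      (univ.filter fun ω : Oc r I => mean S + mean S / 2 ≤ nC c S ω) := by
    intro ω hω
    rw [mem_fil] at hω
    rw [mem_union, mem_filter, mem_filter]
    rcases hω with h | h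
    · left
      exact ⟨mem_univ _, by linarith⟩
    · right
      exact ⟨mem_univ _, by linarith⟩
  have h3 := (card_le_card hsub).trans (card_union_le _ _)
  have h4 : ((fil fun ω : Oc r I => nC c S ω ≤ mean S / 2 ∨ 3 / 2 * mean S ≤ nC c S ω).card : ℝ) ≤
      ((univ.filter fun ω : Oc r I => nC c S ω ≤ mean S - mean S / 2).card : ℝ) +
      ((univ.filter fun ω : Oc r I => mean S + mean S / 2 ≤ nC c S ω).card : ℝ) := by
    exact_mod_cast h3
  push_cast at h1 h2
  linarith

/-- if few reads, then the mean is large -/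
theorem mean_ge (S : I → Finset (Fin r)) (T k : ℕ) (hT : ∑ e, (S e).card ≤ T)
    (hk : 2 * T ≤ Fintype.card I * (k + 1)) :
    (Fintype.card I : ℝ) / 2 ^ (k + 2) ≤ mean S := by
  classical
  set J := univ.filter fun e => (S e).card ≤ k with hJ
  have h1 : ((univ.filter fun e => ¬ (S e).card ≤ k).card) * (k + 1) ≤ T := by
    calc ((univ.filter fun e => ¬ (S e).card ≤ k).card) * (k + 1)
        = ∑ _e ∈ univ.filter (fun e => ¬ (S e).card ≤ k), (k + 1) := by
          rw [Finset.sum_const, smul_eq_mul]
      _ ≤ ∑ e ∈ univ.filter (fun e => ¬ (S e).card ≤ k), (S e).card := by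
          refine Finset.sum_le_sum fun e he => ?_
          have := (mem_filter.1 he).2
          omega
      _ ≤ ∑ e, (S e).card := Finset.sum_le_sum_of_subset (filter_subset _ _)
      _ ≤ T := hT
  have h2 : J.card + (univ.filter fun e => ¬ (S e).card ≤ k).card = Fintype.card I := by
    rw [hJ, ← card_univ]
    exact card_filter_add_card_filter_not (s := (univ : Finset I)) (fun e => (S e).card ≤ k)
  have h3 : Fintype.card I ≤ 2 * J.card := by
    have h4 : 2 * ((univ.filter fun e => ¬ (S e).card ≤ k).card) ≤ Fintype.card I := by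
      have h5 : 2 * ((univ.filter fun e => ¬ (S e).card ≤ k).card) * (k + 1) ≤
          Fintype.card I * (k + 1) := by
        rw [mul_assoc]
        exact (Nat.mul_le_mul_left 2 h1).trans hk
      exact Nat.le_of_mul_le_mul_right h5 (Nat.succ_pos k)
    omega
  have h5 : (Fintype.card I : ℝ) ≤ 2 * J.card := by exact_mod_cast h3
  calc (Fintype.card I : ℝ) / 2 ^ (k + 2) ≤ (2 * J.card) / 2 ^ (k + 2) :=
        div_le_div_of_nonneg_right h5 (by positivity)
    _ = ∑ _e ∈ J, (1 / 2 : ℝ) ^ (k + 1) := by
        rw [Finset.sum_const, nsmul_eq_mul, one_div, inv_pow, pow_succ (2:ℝ) (k + 1)]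
        field_simp
    _ ≤ ∑ e ∈ J, (1 / 2 : ℝ) ^ ((S e).card + 1) := by
        refine Finset.sum_le_sum fun e he => ?_
        refine pow_le_pow_of_le_one (by norm_num) (by norm_num) ?_
        have := (mem_filter.1 he).2
        omega
    _ ≤ mean S := Finset.sum_le_sum_of_subset_of_nonneg (filter_subset _ _)
        fun _ _ _ => by positivity

end Pool.Agent.Lib_helper26.TQ
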