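import Pool.Agent.Lib_helper26.TQ.Runs

/-!
# Small machines have a small correlation with the quadratic form
-/

set_option autoImplicit false
set_option linter.unusedSectionVars false

namespace Pool.Agent.Lib_helper26.TQ

open Finset
open Pool.Agent.Lib_helper26.TS (fil mem_fil fil_congr)

/-- balanced pairs of sets of at least `μ` cells -/
def Bal {n : ℕ} (μ : ℝ) (P Q : Finset (Fin n)) : Prop :=
  μ ≤ P.card ∧ μ ≤ Q.card ∧ P.card ≤ 3 * Q.card ∧ Q.card ≤ 3 * P.card

theorem sum_exp_card (n : ℕ) (l : ℝ) :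
    ∑ P : Finset (Fin n), Real.exp (-(l * P.card)) ≤ Real.exp (n * Real.exp (-l)) := by
  have h1 : ∑ P : Finset (Fin n), Real.exp (-(l * P.card)) = (Real.exp (-l) + 1) ^ n := by
    have h2 := Finset.sum_pow_mul_eq_add_pow (Real.exp (-l)) 1 (univ : Finset (Fin n))
    rw [card_univ, Fintype.card_fin] at h2
    rw [← h2, Finset.powerset_univ]
    refine Finset.sum_congr rfl fun P _ => ?_
    rw [one_pow, mul_one, ← Real.exp_nat_mul]
    congr 1
    ring
  rw [h1, mul_comm, Real.exp_mul, Real.rpow_natCast]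
  exact pow_le_pow_left₀ (by positivity) (Real.add_one_le_exp _) _

theorem sum_bal (n : ℕ) (l μ : ℝ) (hl : 0 ≤ l) [∀ P Q : Finset (Fin n), Decidable (Bal μ P Q)] :
    ∑ P : Finset (Fin n), ∑ Q : Finset (Fin n),
      (if Bal μ P Q then Real.exp (-(8 * l * (min P.card Q.card : ℕ))) else 0) ≤
      Real.exp (2 * (-(l * μ) + n * Real.exp (-l))) := by
  set w : Finset (Fin n) → ℝ := fun P => Real.exp (-(l * μ)) * Real.exp (-(l * P.card)) with hw
  have h1 : ∀ P Q : Finset (Fin n),
      (if Bal μ P Q then Real.exp (-(8 * l * (min P.card Q.card : ℕ))) else 0) ≤ w P * w Q := by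
    intro P Q
    split_ifs with h
    · obtain ⟨h1, h2, h3, h4⟩ := h
      rw [hw]
      simp only
      rw [← Real.exp_add, ← Real.exp_add, ← Real.exp_add, Real.exp_le_exp]
      have h5 : P.card + Q.card ≤ 4 * min P.card Q.card := by
        rcases le_total P.card Q.card with h | h
        · rw [min_eq_left h]
          omega
        · rw [min_eq_right h]
          omega
      have h6 : (P.card : ℝ) + Q.card ≤ 4 * ((min P.card Q.card : ℕ) : ℝ) := by exact_mod_cast h5
      nlinarith [mul_le_mul_of_nonneg_left h6 hl, mul_le_mul_of_nonneg_left h1 hl,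
        mul_le_mul_of_nonneg_left h2 hl]
    · rw [hw]
      positivity
  have h2 : ∑ P, w P ≤ Real.exp (-(l * μ) + n * Real.exp (-l)) := by
    rw [hw]
    simp only
    rw [← Finset.mul_sum, Real.exp_add]
    exact mul_le_mul_of_nonneg_left (sum_exp_card n l) (Real.exp_pos _).le
  have h3 : 0 ≤ ∑ P, w P := Finset.sum_nonneg fun P _ => by rw [hw]; positivity
  calc _ ≤ ∑ P, ∑ Q, w P * w Q := Finset.sum_le_sum fun P _ => Finset.sum_le_sum fun Q _ => h1 P Q
    _ = (∑ P, w P) * (∑ Q, w Q) := by rw [Finset.sum_mul_sum]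
    _ ≤ Real.exp (-(l * μ) + n * Real.exp (-l)) * Real.exp (-(l * μ) + n * Real.exp (-l)) :=
        mul_le_mul h2 h2 h3 (Real.exp_pos _).le
    _ = _ := by
        rw [← Real.exp_add]
        congr 1
        ring

variable {K : Type} [Field K] [Fintype K] [DecidableEq K] {n : ℕ} {V : Type} [Fintype V]

theorem corr {ψ : K → ℝ} (hψ : IsChar ψ) {α : Fin n → K} (hα : Function.Injective α)
    (h2 : ∀ x : K, x + x = 0) (M : Mach (Fin n) K V) {T L r : ℕ} (hL : 0 < L) (hT : T ≤ r * L)
    (ω : Oc r (Fin n)) (μ l : ℝ) (hl0 : 0 ≤ l) (hl : 16 * l = Real.log (Fintype.card K)) :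
    |∑ z ∈ fil (M.Accepts T), ψ (quad α z)| ≤
      ((fil fun z => ¬ Bal μ (FC M T L r ω true z) (FC M T L r ω false z)).card : ℝ) +
      (Fintype.card V : ℝ) ^ (r + 1) * ((Fintype.card K : ℝ) ^ n *
        Real.exp (2 * (-(l * μ) + n * Real.exp (-l)))) := by
  classical
  set N : ℝ := (Fintype.card K : ℝ) ^ n with hN
  have hN0 : 0 ≤ N := by rw [hN]; positivity
  set key : (Fin n → K) → (Fin (r + 1) → V) × Finset (Fin n) × Finset (Fin n) := fun x =>
    (fun j => M.state x (min (j.val * L) T), FC M T L r ω true x, FC M T L r ω false x) with hkey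
  have hfil : ∀ κ : (Fin (r + 1) → V) × Finset (Fin n) × Finset (Fin n),
      ((fil (M.Accepts T)).filter fun z => key z = κ) =
      fil fun x => ((∀ j : Fin (r + 1), M.state x (min (j.val * L) T) = κ.1 j) ∧
      FC M T L r ω true x = κ.2.1 ∧ FC M T L r ω false x = κ.2.2) ∧ M.Accepts T x := by
    intro κ
    ext z
    rw [mem_filter, mem_fil, mem_fil, hkey]
    simp only [Prod.ext_iff, funext_iff]
    tauto
  rw [← Finset.sum_fiberwise (fil (M.Accepts T)) key (fun z => ψ (quad α z))]
  refine (Finset.abs_sum_le_sum_abs _ _).trans ?_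
  have hone : ∀ κ : (Fin (r + 1) → V) × Finset (Fin n) × Finset (Fin n),
      |∑ z ∈ (fil (M.Accepts T)).filter (fun z => key z = κ), ψ (quad α z)| ≤
      (if Bal μ κ.2.1 κ.2.2 then (0:ℝ) else ((univ.filter fun z => key z = κ).card : ℝ)) +
      (if Bal μ κ.2.1 κ.2.2 then N * Real.exp (-(8 * l * (min κ.2.1.card κ.2.2.card : ℕ)))
        else 0) := by
    intro κ
    by_cases hB : Bal μ κ.2.1 κ.2.2
    · rw [if_pos hB, if_pos hB, zero_add, hfil κ]
      by_cases hd : Disjoint κ.2.1 κ.2.2
      · have h3 := class_bound hψ hα h2 κ.2.1 κ.2.2 hd _ (closed_class M hL hT ω κ.1 κ.2.1 κ.2.2)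
        rw [← hl] at h3
        have e1 : 16 * l / 2 = 8 * l := by ring
        rw [e1] at h3
        exact h3
      · have h4 : (fil fun x => ((∀ j : Fin (r + 1), M.state x (min (j.val * L) T) = κ.1 j) ∧
            FC M T L r ω true x = κ.2.1 ∧ FC M T L r ω false x = κ.2.2) ∧ M.Accepts T x) = ∅ := by
          rw [Finset.eq_empty_iff_forall_notMem]
          intro x hx
          obtain ⟨⟨-, h5, h6⟩, -⟩ := mem_fil.1 hx
          apply hd
          rw [← h5, ← h6]
          exact FC_disjoint M T L r ω x x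
        rw [h4, Finset.sum_empty, abs_zero]
        exact mul_nonneg hN0 (Real.exp_pos _).le
    · rw [if_neg hB, if_neg hB, add_zero]
      refine (Finset.abs_sum_le_sum_abs _ _).trans ?_
      rw [Finset.sum_congr rfl fun z _ => hψ.abs _, Finset.sum_const, nsmul_eq_mul, mul_one]
      have : ((fil (M.Accepts T)).filter fun z => key z = κ) ⊆ univ.filter fun z => key z = κ :=
        fun z hz => mem_filter.2 ⟨mem_univ _, (mem_filter.1 hz).2⟩
      exact_mod_cast card_le_card this
  refine (Finset.sum_le_sum fun κ _ => hone κ).trans ?_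
  rw [Finset.sum_add_distrib]
  refine add_le_add (le_of_eq ?_) ?_
  · -- the unbalanced inputs
    have h3 : ∀ κ : (Fin (r + 1) → V) × Finset (Fin n) × Finset (Fin n),
        (if Bal μ κ.2.1 κ.2.2 then (0:ℝ) else ((univ.filter fun z => key z = κ).card : ℝ)) =
        ∑ z ∈ univ.filter (fun z => key z = κ), if Bal μ (key z).2.1 (key z).2.2 then (0:ℝ) else 1 := by
      intro κ
      have h4 : ∀ z ∈ univ.filter (fun z => key z = κ),
          (if Bal μ (key z).2.1 (key z).2.2 then (0:ℝ) else 1) =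
          if Bal μ κ.2.1 κ.2.2 then (0:ℝ) else 1 := by
        intro z hz
        rw [(mem_filter.1 hz).2]
      rw [Finset.sum_congr rfl h4, Finset.sum_const, nsmul_eq_mul]
      split_ifs <;> simp
    rw [Finset.sum_congr rfl fun κ _ => h3 κ,
      Finset.sum_fiberwise (univ : Finset (Fin n → K)) key
        (fun z => if Bal μ (key z).2.1 (key z).2.2 then (0:ℝ) else 1)]
    have h5 : ∀ z, (if Bal μ (key z).2.1 (key z).2.2 then (0:ℝ) else 1) =
        if ¬ Bal μ (key z).2.1 (key z).2.2 then (1:ℝ) else 0 := by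
      intro z
      split_ifs <;> simp_all
    rw [Finset.sum_congr rfl fun z _ => h5 z, ← Finset.sum_filter, Finset.sum_const, nsmul_eq_mul,
      mul_one]
    congr 2
    ext z
    rw [mem_filter, mem_fil]
    exact ⟨fun h => h.2, fun h => ⟨mem_univ _, h⟩⟩
  · rw [Fintype.sum_prod_type]
    simp only
    rw [Finset.sum_const, card_univ, Fintype.card_fun, Fintype.card_fin, nsmul_eq_mul]
    push_cast
    refine mul_le_mul_of_nonneg_left ?_ (by positivity)
    rw [Fintype.sum_prod_type]
    simp only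
    have h6 : ∀ P Q : Finset (Fin n),
        (if Bal μ P Q then N * Real.exp (-(8 * l * (min P.card Q.card : ℕ))) else 0) =
        N * (if Bal μ P Q then Real.exp (-(8 * l * (min P.card Q.card : ℕ))) else 0) := by
      intro P Q
      split_ifs <;> simp
    have h7 : ∑ P : Finset (Fin n), ∑ Q : Finset (Fin n),
        (if Bal μ P Q then N * Real.exp (-(8 * l * (min P.card Q.card : ℕ))) else 0) =
        N * ∑ P : Finset (Fin n), ∑ Q : Finset (Fin n),
          (if Bal μ P Q then Real.exp (-(8 * l * (min P.card Q.card : ℕ))) else 0) := by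
      rw [Finset.mul_sum]
      refine Finset.sum_congr rfl fun P _ => ?_
      rw [Finset.mul_sum]
      exact Finset.sum_congr rfl fun Q _ => h6 P Q
    have h8 := mul_le_mul_of_nonneg_left (sum_bal n l μ hl0) hN0
    push_cast at h7 h8 ⊢
    rw [h7]
    exact h8

/-- a good colouring -/
theorem exists_col (M : Mach (Fin n) K V) {T L r : ℕ} (hL : 0 < L) (μ σ E : ℝ) (hμ : 0 < μ)
    (hσ : 0 < σ) (hσ' : r * (L : ℝ) ^ 2 + n ≤ σ) (hmean : ∀ z, 2 * μ ≤ mean (segs M T L r z))
    (hE : E ≤ μ ^ 2 / (2 * σ)) :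
    ∃ ω : Oc r (Fin n),
      ((fil fun z => ¬ Bal μ (FC M T L r ω true z) (FC M T L r ω false z)).card : ℝ) ≤
        (Fintype.card K : ℝ) ^ n * (4 * Real.exp (-E)) := by
  classical
  set N2 : ℝ := 2 ^ Fintype.card (Fin r ⊕ Fin n) with hN2
  have hOc : (Fintype.card (Oc r (Fin n)) : ℝ) = N2 := by
    rw [Fintype.card_fun, Fintype.card_bool, hN2]
    push_cast
    rfl
  -- one input
  have h1 : ∀ z : Fin n → K,
      ((fil fun ω : Oc r (Fin n) => ¬ Bal μ (FC M T L r ω true z) (FC M T L r ω false z)).card : ℝ) ≤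
        N2 * (4 * Real.exp (-E)) := by
    intro z
    set S := segs M T L r z with hS
    have hm := hmean z
    rw [← hS] at hm
    have hsub : (fil fun ω : Oc r (Fin n) => ¬ Bal μ (FC M T L r ω true z) (FC M T L r ω false z)) ⊆
        (fil fun ω : Oc r (Fin n) => nC true S ω ≤ mean S / 2 ∨ 3 / 2 * mean S ≤ nC true S ω) ∪
        (fil fun ω : Oc r (Fin n) => nC false S ω ≤ mean S / 2 ∨ 3 / 2 * mean S ≤ nC false S ω) := by
      intro ω hω
      rw [mem_fil] at hω
      rw [mem_union, mem_fil, mem_fil]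
      by_contra hcon
      push Not at hcon
      obtain ⟨⟨a1, a2⟩, b1, b2⟩ := hcon
      apply hω
      have ea : nC true S ω = ((FC M T L r ω true z).card : ℝ) := rfl
      have eb : nC false S ω = ((FC M T L r ω false z).card : ℝ) := rfl
      rw [ea] at a1 a2
      rw [eb] at b1 b2
      refine ⟨by linarith, by linarith, ?_, ?_⟩
      · have : ((FC M T L r ω true z).card : ℝ) ≤ 3 * ((FC M T L r ω false z).card : ℝ) := by
          linarith
        exact_mod_cast this
      · have : ((FC M T L r ω false z).card : ℝ) ≤ 3 * ((FC M T L r ω true z).card : ℝ) := by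
          linarith
        exact_mod_cast this
    have hcard := (card_le_card hsub).trans (card_union_le _ _)
    have hcard' : ((fil fun ω : Oc r (Fin n) =>
        ¬ Bal μ (FC M T L r ω true z) (FC M T L r ω false z)).card : ℝ) ≤
        ((fil fun ω : Oc r (Fin n) => nC true S ω ≤ mean S / 2 ∨
          3 / 2 * mean S ≤ nC true S ω).card : ℝ) +
        ((fil fun ω : Oc r (Fin n) => nC false S ω ≤ mean S / 2 ∨
          3 / 2 * mean S ≤ nC false S ω).card : ℝ) := by exact_mod_cast hcard
    have hsg : ∀ j, (fil fun e => j ∈ S e).card ≤ L := fun j => seg_le M T L r hL z j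
    have hσ'' : r * (L : ℝ) ^ 2 + Fintype.card (Fin n) ≤ σ := by
      rw [Fintype.card_fin]
      exact hσ'
    have c1 := conc true S L hsg σ hσ hσ''
    have c2 := conc false S L hsg σ hσ hσ''
    have hexp : Real.exp (-(mean S ^ 2 / (8 * σ))) ≤ Real.exp (-E) := by
      rw [Real.exp_le_exp]
      have h3 : (2 * μ) ^ 2 ≤ mean S ^ 2 := pow_le_pow_left₀ (by linarith) hm 2
      have h4 : μ ^ 2 / (2 * σ) ≤ mean S ^ 2 / (8 * σ) := by
        rw [div_le_div_iff₀ (by positivity) (by positivity)]
        nlinarith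
      linarith
    have hN2' : (0:ℝ) ≤ N2 := by rw [hN2]; positivity
    rw [← hN2] at c1 c2
    have h5 := mul_le_mul_of_nonneg_left hexp hN2'
    linarith
  -- the average
  by_contra hcon
  push Not at hcon
  have h2 : ∑ ω : Oc r (Fin n),
      ((fil fun z => ¬ Bal μ (FC M T L r ω true z) (FC M T L r ω false z)).card : ℝ) =
      ∑ z : Fin n → K, ((fil fun ω : Oc r (Fin n) =>
        ¬ Bal μ (FC M T L r ω true z) (FC M T L r ω false z)).card : ℝ) := by
    have e1 : ∀ ω : Oc r (Fin n),
        ((fil fun z => ¬ Bal μ (FC M T L r ω true z) (FC M T L r ω false z)).card : ℝ) =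
        ∑ z, if ¬ Bal μ (FC M T L r ω true z) (FC M T L r ω false z) then (1:ℝ) else 0 := by
      intro ω
      rw [← Finset.sum_filter, Finset.sum_const, nsmul_eq_mul, mul_one]
      congr 2
      ext z
      rw [mem_fil, mem_filter]
      exact ⟨fun h => ⟨mem_univ _, h⟩, fun h => h.2⟩
    have e2 : ∀ z : Fin n → K,
        ((fil fun ω : Oc r (Fin n) => ¬ Bal μ (FC M T L r ω true z)
          (FC M T L r ω false z)).card : ℝ) =
        ∑ ω, if ¬ Bal μ (FC M T L r ω true z) (FC M T L r ω false z) then (1:ℝ) else 0 := by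
      intro z
      rw [← Finset.sum_filter, Finset.sum_const, nsmul_eq_mul, mul_one]
      congr 2
      ext ω
      rw [mem_fil, mem_filter]
      exact ⟨fun h => ⟨mem_univ _, h⟩, fun h => h.2⟩
    rw [Finset.sum_congr rfl fun ω _ => e1 ω, Finset.sum_congr rfl fun z _ => e2 z, Finset.sum_comm]
  have h3 : ∑ z : Fin n → K, ((fil fun ω : Oc r (Fin n) =>
        ¬ Bal μ (FC M T L r ω true z) (FC M T L r ω false z)).card : ℝ) ≤
      (Fintype.card K : ℝ) ^ n * (N2 * (4 * Real.exp (-E))) := by
    refine (Finset.sum_le_sum fun z _ => h1 z).trans (le_of_eq ?_)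
    rw [Finset.sum_const, card_univ, Fintype.card_fun, Fintype.card_fin, nsmul_eq_mul]
    push_cast
    rfl
  have h4 : ∑ _ω : Oc r (Fin n), (Fintype.card K : ℝ) ^ n * (4 * Real.exp (-E)) <
      ∑ ω : Oc r (Fin n),
      ((fil fun z => ¬ Bal μ (FC M T L r ω true z) (FC M T L r ω false z)).card : ℝ) :=
    Finset.sum_lt_sum_of_nonempty ⟨fun _ => true, mem_univ _⟩ fun ω _ => hcon ω
  rw [Finset.sum_const, card_univ, nsmul_eq_mul, hOc, h2] at h4
  linarith [h3, h4, mul_left_comm N2 ((Fintype.card K : ℝ) ^ n) (4 * Real.exp (-E))]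

end Pool.Agent.Lib_helper26.TQ
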