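import Pool.Agent.Lib_helper26.TQ.Alt

/-!
# Nonuniform random access machines, the modes PP, parity, PSPACE, and the quadratic form
-/

set_option autoImplicit false

namespace Pool.Agent.Lib_helper26.TQ

/-- A nonuniform random access machine for inputs `x : I → A` (cells `I`, words `A`) with memory
states `V`: at time `t`, in state `v`, it reads the cell `query t v` and moves to the state
`next t v (contents of the cell)`. -/
structure Mach (I A V : Type) where
  /-- initial state -/
  start : V
  /-- the cell read at time `t` in state `v` -/
  query : ℕ → V → I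
  /-- next state -/
  next : ℕ → V → A → V
  /-- accepting states -/
  acc : V → Prop

/-- The state after `t` steps on input `x`. -/
def Mach.state {I A V : Type} (M : Mach I A V) (x : I → A) : ℕ → V
  | 0 => M.start
  | t + 1 => M.next t (M.state x t) (x (M.query t (M.state x t)))

/-- The machine accepts `x` after `T` steps. -/
def Mach.Accepts {I A V : Type} (M : Mach I A V) (T : ℕ) (x : I → A) : Prop :=
  M.acc (M.state x T)

/-- PP mode with `W` random bits: more than half of the `2 ^ W` machines accept. -/
def InPP (I A : Type) (T : ℕ) (V : Type) (W : ℕ) (L : (I → A) → Prop) : Prop :=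
  ∃ P : Fin (2 ^ W) → Mach I A V, ∀ x, L x ↔ 2 ^ W < 2 * Nat.card {w // (P w).Accepts T x}

/-- Parity mode with `W` bits: an odd number of the `2 ^ W` machines accept. -/
def InParity (I A : Type) (T : ℕ) (V : Type) (W : ℕ) (L : (I → A) → Prop) : Prop :=
  ∃ P : Fin (2 ^ W) → Mach I A V, ∀ x, L x ↔ Odd (Nat.card {w // (P w).Accepts T x})

/-- PSPACE mode with `W` bits: in the game with a fixed string of at most `W` quantifiers the
machine of the list of the chosen bits accepts. -/
def InPSPACE (I A : Type) (T : ℕ) (V : Type) (W : ℕ) (L : (I → A) → Prop) : Prop :=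
  ∃ (qs : List Bool) (P : List Bool → Mach I A V), qs.length ≤ W ∧
    ∀ x, L x ↔ Alt qs fun w => (P w).Accepts T x

/-- The quadratic form `∑ z a * z b / (α a + α b)`, the sum over `a < b`. -/
def quad {n : ℕ} {K : Type} [Field K] (α z : Fin n → K) : K :=
  ∑ a, ∑ b ∈ Finset.Ioi a, z a * z b / (α a + α b)

/-- The trace of the quadratic form, for words in the field with `2 ^ e` elements, is one. -/
def TrQuad {n e : ℕ} (α z : Fin n → GaloisField 2 e) : Prop :=
  Algebra.trace (ZMod 2) (GaloisField 2 e) (quad α z) = 1

end Pool.Agent.Lib_helper26.TQ
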