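import Pool.Agent.Lib_helper26.TQ.Main
import Pool.Agent.Lib_helper26.TQ.Modes

/-!
# The field with `2 ^ e` elements, the small machines for the quadratic form
-/

set_option autoImplicit false
set_option linter.unusedSectionVars false

namespace Pool.Agent.Lib_helper26.TQ

open Finset

section gen

variable {K : Type} [Field K] {n : ℕ}

/-- the machine number `a`: it reads the words number `a`, `a + 1`, …, `n - 1` -/
def rowM (α : Fin n → K) (φ : K → Prop) (a : Fin n) : Mach (Fin n) K (K × K) where
  start := (0, 0)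
  query := fun t _ => if h : a.val + t < n then ⟨a.val + t, h⟩ else a
  next := fun t v x => if t = 0 then (x, 0) else
    if h : a.val + t < n then (v.1, v.2 + v.1 * x / (α a + α ⟨a.val + t, h⟩)) else v
  acc := fun v => φ v.2

theorem rowM_state (α : Fin n → K) (φ : K → Prop) (a : Fin n) (z : Fin n → K) (t : ℕ) :
    (rowM α φ a).state z (t + 1) =
      (z a, ∑ b ∈ (Finset.Ioi a).filter (fun b => b.val ≤ a.val + t), z a * z b / (α a + α b)) := by
  induction t with
  | zero =>
    have h1 : (Finset.Ioi a).filter (fun b => b.val ≤ a.val + 0) = ∅ := by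
      rw [Finset.filter_eq_empty_iff]
      intro b hb
      rw [mem_Ioi, Fin.lt_def] at hb
      omega
    rw [h1, Finset.sum_empty]
    show (z (if h : a.val + 0 < n then ⟨a.val + 0, h⟩ else a), (0:K)) = _
    rw [dif_pos (by have := a.2; omega)]
    rfl
  | succ t ih =>
    show (rowM α φ a).next (t + 1) ((rowM α φ a).state z (t + 1))
      (z ((rowM α φ a).query (t + 1) ((rowM α φ a).state z (t + 1)))) = _
    rw [ih]
    have hnext : ∀ (v : K × K) (x : K), (rowM α φ a).next (t + 1) v x =
        if h : a.val + (t + 1) < n then (v.1, v.2 + v.1 * x / (α a + α ⟨a.val + (t + 1), h⟩))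
          else v := by
      intro v x
      show (if t + 1 = 0 then (x, (0:K)) else if h : a.val + (t + 1) < n then
        (v.1, v.2 + v.1 * x / (α a + α ⟨a.val + (t + 1), h⟩)) else v) = _
      rw [if_neg (Nat.succ_ne_zero t)]
    rw [hnext]
    by_cases h : a.val + (t + 1) < n
    · rw [dif_pos h]
      show (z a, _ + z a * z (if h : a.val + (t + 1) < n then ⟨a.val + (t + 1), h⟩ else a) / _) = _
      rw [dif_pos h]
      refine Prod.ext rfl ?_
      show _ + _ = _
      have h2 : (Finset.Ioi a).filter (fun b => b.val ≤ a.val + (t + 1)) =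
          insert ⟨a.val + (t + 1), h⟩ ((Finset.Ioi a).filter (fun b => b.val ≤ a.val + t)) := by
        ext b
        simp only [mem_filter, mem_Ioi, mem_insert, Fin.lt_def, Fin.ext_iff]
        omega
      rw [h2, Finset.sum_insert, add_comm]
      simp only [mem_filter, mem_Ioi, Fin.lt_def]
      omega
    · rw [dif_neg h]
      refine Prod.ext rfl ?_
      show _ = _
      refine Finset.sum_congr ?_ fun _ _ => rfl
      ext b
      simp only [mem_filter, mem_Ioi, Fin.lt_def]
      have := b.2
      omega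

theorem rowM_accepts (α : Fin n → K) (φ : K → Prop) (a : Fin n) (z : Fin n → K) (T : ℕ)
    (hT : n ≤ T) :
    (rowM α φ a).Accepts T z ↔ φ (∑ b ∈ Finset.Ioi a, z a * z b / (α a + α b)) := by
  obtain ⟨t, rfl⟩ : ∃ t, T = t + 1 := ⟨T - 1, by have := a.2; omega⟩
  show φ ((rowM α φ a).state z (t + 1)).2 ↔ _
  rw [rowM_state]
  show φ (∑ b ∈ _, _) ↔ _
  have h2 : (Finset.Ioi a).filter (fun b => b.val ≤ a.val + t) = Finset.Ioi a := by
    rw [Finset.filter_eq_self]
    intro b _
    have := b.2
    omega
  rw [h2]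

end gen

variable {n e : ℕ}

theorem two_zero (x : GaloisField 2 e) : x + x = 0 := CharTwo.add_self_eq_zero x

/-- the trace -/
noncomputable abbrev tr (x : GaloisField 2 e) : ZMod 2 := Algebra.trace (ZMod 2) (GaloisField 2 e) x

/-- the character -/
noncomputable def chi (x : GaloisField 2 e) : ℝ := if tr x = 1 then -1 else 1

theorem zmod2 (x : ZMod 2) : x = 0 ∨ x = 1 := by
  revert x
  decide

theorem tr_nondeg {c : GaloisField 2 e} (hc : c ≠ 0) : ∃ b, tr (b * c) = 1 := by
  by_contra hcon
  push Not at hcon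
  have h1 : ∀ b, tr (b * c) = 0 := fun b => (zmod2 _).resolve_right (hcon b)
  have h2 := traceForm_nondegenerate (ZMod 2) (GaloisField 2 e)
  apply hc
  refine h2.2 c fun b => ?_
  rw [Algebra.traceForm_apply]
  exact h1 b

theorem isChar_chi [Fintype (GaloisField 2 e)] : IsChar (chi (e := e)) where
  add := by
    intro x y
    unfold chi
    have h : tr (x + y) = tr x + tr y := map_add _ _ _
    rw [h]
    rcases zmod2 (tr x) with hx | hx <;> rcases zmod2 (tr y) with hy | hy <;> rw [hx, hy]
    · norm_num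
    · norm_num
    · norm_num
    · have : (1 + 1 : ZMod 2) = 0 := by decide
      rw [this]
      norm_num
  sq := by
    intro x
    unfold chi
    split_ifs <;> norm_num
  zero := by
    intro c hc
    obtain ⟨b, hb⟩ := tr_nondeg hc
    have h1 : ∑ x, chi (x * c) = ∑ x, chi ((x + b) * c) :=
      (Equiv.sum_comp (Equiv.addRight b) (fun x => chi (x * c))).symm
    have h2 : ∀ x, chi ((x + b) * c) = - chi (x * c) := by
      intro x
      unfold chi
      have h : tr ((x + b) * c) = tr (x * c) + tr (b * c) := by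
        rw [add_mul]
        exact map_add _ _ _
      rw [h, hb]
      rcases zmod2 (tr (x * c)) with hx | hx <;> rw [hx]
      · norm_num
      · have : (1 + 1 : ZMod 2) = 0 := by decide
        rw [this]
        norm_num
    rw [Finset.sum_congr rfl fun x _ => h2 x, Finset.sum_neg_distrib] at h1
    linarith

theorem chi_iff (x : GaloisField 2 e) : chi x = -1 ↔ tr x = 1 := by
  unfold chi
  split_ifs with h
  · simp [h]
  · simp only [h, iff_false]
    norm_num

/-- the trace form is not in PP mode -/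
theorem trQuad_pp {α : Fin n → GaloisField 2 e} (hα : Function.Injective α) (hn : 0 < n)
    (T W : ℕ) (V : Type) [Fintype V] (h : InPP (Fin n) (GaloisField 2 e) T V W (TrQuad α)) :
    (n : ℝ) * (Real.logb 2 (n / ((Real.logb 2 (Fintype.card V) + 1) * (W + 1))) - 128) ≤
      32 * T := by
  classical
  have : Fintype (GaloisField 2 e) := Fintype.ofFinite _
  obtain ⟨P, hP⟩ := h
  refine pp_lower isChar_chi hα two_zero hn W T P fun z => ?_
  rw [← hP z, chi_iff]
  rfl

theorem odd_card {ι : Type} [Fintype ι] (p : ι → Prop) [DecidablePred p] :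
    Odd (Nat.card {w // p w}) ↔ ∑ w, (if p w then (1 : ZMod 2) else 0) = 1 := by
  classical
  rw [← Finset.sum_filter, Finset.sum_const, nsmul_eq_mul, mul_one, Nat.card_eq_fintype_card,
    Fintype.card_subtype, ← ZMod.natCast_eq_one_iff_odd]

/-- the trace form is in parity mode -/
theorem trQuad_parity (α : Fin n → GaloisField 2 e) (hn : 0 < n) (T : ℕ) (hT : n ≤ T) :
    InParity (Fin n) (GaloisField 2 e) T (GaloisField 2 e × GaloisField 2 e) (Nat.clog 2 n)
      (TrQuad α) := by
  classical
  have hc : n ≤ 2 ^ Nat.clog 2 n := Nat.le_pow_clog (by norm_num) n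
  let φ : GaloisField 2 e → Prop := fun x => tr x = 1
  let P : Fin (2 ^ Nat.clog 2 n) → Mach (Fin n) (GaloisField 2 e) (GaloisField 2 e × GaloisField 2 e) :=
    fun w => if h : w.val < n then rowM α φ ⟨w.val, h⟩ else constM (rowM α φ ⟨0, hn⟩) False
  refine ⟨P, fun z => ?_⟩
  rw [odd_card]
  have h1 : ∀ w, (if (P w).Accepts T z then (1 : ZMod 2) else 0) =
      if h : w.val < n then tr (∑ b ∈ Finset.Ioi (⟨w.val, h⟩ : Fin n),
        z ⟨w.val, h⟩ * z b / (α ⟨w.val, h⟩ + α b)) else 0 := by
    intro w
    by_cases h : w.val < n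
    · rw [dif_pos h]
      have e1 : P w = rowM α φ ⟨w.val, h⟩ := by simp only [P, dif_pos h]
      rw [e1]
      have e2 := rowM_accepts α φ ⟨w.val, h⟩ z T hT
      rcases zmod2 (tr (∑ b ∈ Finset.Ioi (⟨w.val, h⟩ : Fin n),
        z ⟨w.val, h⟩ * z b / (α ⟨w.val, h⟩ + α b))) with h3 | h3
      · rw [h3, if_neg]
        rw [e2]
        show ¬ (tr _ = 1)
        rw [h3]
        decide
      · rw [h3, if_pos]
        rw [e2]
        exact h3
    · rw [dif_neg h]
      have e1 : P w = constM (rowM α φ ⟨0, hn⟩) False := by simp only [P, dif_neg h]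
      rw [e1, if_neg]
      rw [constM_accepts]
      exact id
  rw [Finset.sum_congr rfl fun w _ => h1 w]
  show tr (quad α z) = 1 ↔ _
  have h2 : tr (quad α z) = ∑ a : Fin n, tr (∑ b ∈ Finset.Ioi a, z a * z b / (α a + α b)) := by
    unfold quad
    exact map_sum (Algebra.trace (ZMod 2) (GaloisField 2 e)) _ _
  rw [h2]
  have h3 : (∑ w : Fin (2 ^ Nat.clog 2 n), if h : w.val < n then
      tr (∑ b ∈ Finset.Ioi (⟨w.val, h⟩ : Fin n), z ⟨w.val, h⟩ * z b / (α ⟨w.val, h⟩ + α b)) else 0) =
      ∑ a : Fin n, tr (∑ b ∈ Finset.Ioi a, z a * z b / (α a + α b)) := by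
    have h4 := Fin.sum_univ_eq_sum_range (fun i => if h : i < n then
      tr (∑ b ∈ Finset.Ioi (⟨i, h⟩ : Fin n), z ⟨i, h⟩ * z b / (α ⟨i, h⟩ + α b)) else 0)
    rw [h4 (2 ^ Nat.clog 2 n)]
    have h5 : ∑ a : Fin n, tr (∑ b ∈ Finset.Ioi a, z a * z b / (α a + α b)) =
        ∑ i ∈ range n, (if h : i < n then
      tr (∑ b ∈ Finset.Ioi (⟨i, h⟩ : Fin n), z ⟨i, h⟩ * z b / (α ⟨i, h⟩ + α b)) else 0) := by
      rw [← h4 n]
      refine Finset.sum_congr rfl fun a _ => ?_
      rw [dif_pos a.2]
    rw [h5]
    symm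
    refine Finset.sum_subset (fun i hi => ?_) fun i _ hi => ?_
    · rw [mem_range] at hi ⊢
      omega
    · rw [mem_range] at hi
      rw [dif_neg hi]
  rw [h3]

end Pool.Agent.Lib_helper26.TQ
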