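import Pool.Agent.Lib_helper26.TQ.Corr

/-!
# The lower bound for PP mode
-/

set_option autoImplicit false
set_option linter.unusedSectionVars false

namespace Pool.Agent.Lib_helper26.TQ

open Finset
open Pool.Agent.Lib_helper26.TS (fil mem_fil fil_congr)

variable {K : Type} [Field K] [Fintype K] [DecidableEq K] {n : ℕ} {V : Type} [Fintype V]

/-- the whole space -/
theorem whole {ψ : K → ℝ} (hψ : IsChar ψ) {α : Fin n → K} (hα : Function.Injective α)
    (h2 : ∀ x : K, x + x = 0) :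
    |∑ z : Fin n → K, ψ (quad α z)| ≤ (Fintype.card K : ℝ) ^ n *
      Real.exp (-(Real.log (Fintype.card K) / 2 * (n / 2 : ℕ))) := by
  classical
  obtain ⟨A, -, hA⟩ := exists_subset_card_eq (s := (univ : Finset (Fin n))) (n := n / 2)
    (by rw [card_univ, Fintype.card_fin]; omega)
  obtain ⟨B, hB1, hB⟩ := exists_subset_card_eq (s := (univ : Finset (Fin n)) \ A) (n := n / 2)
    (by rw [card_sdiff_of_subset (subset_univ _), card_univ, Fintype.card_fin, hA]; omega)
  have hd : Disjoint A B := by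
    rw [Finset.disjoint_left]
    intro e he he'
    exact (mem_sdiff.1 (hB1 he')).2 he
  have h := class_bound hψ hα h2 A B hd (fun _ => True) (fun _ _ _ _ _ => trivial)
  rw [hA, hB, min_self] at h
  have h3 : (fil fun _ : Fin n → K => True) = univ := by
    ext z
    rw [mem_fil]
    simp
  rwa [h3] at h

/-- the inequality of the counts -/
theorem pp_count {ψ : K → ℝ} (hψ : IsChar ψ) {α : Fin n → K} (W T : ℕ)
    (P : Fin (2 ^ W) → Mach (Fin n) K V)
    (hP : ∀ z, ψ (quad α z) = -1 ↔ 2 ^ W < 2 * Nat.card {w // (P w).Accepts T z}) (D D0 : ℝ)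
    (hD : ∀ w, |∑ z ∈ fil ((P w).Accepts T), ψ (quad α z)| ≤ D)
    (hD0 : |∑ z : Fin n → K, ψ (quad α z)| ≤ D0) :
    (Fintype.card K : ℝ) ^ n / 2 ≤ 2 * 2 ^ W * D + 2 * 2 ^ W * D0 := by
  classical
  set N : ℝ := (Fintype.card K : ℝ) ^ n with hN
  set a : (Fin n → K) → ℝ := fun z => ((fil fun w => (P w).Accepts T z).card : ℝ) with ha
  have hcard : ∀ z, Nat.card {w // (P w).Accepts T z} = (fil fun w => (P w).Accepts T z).card := by
    intro z
    rw [Nat.card_eq_fintype_card, Fintype.card_subtype]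
    congr 1
  have hpm : ∀ z, ψ (quad α z) = 1 ∨ ψ (quad α z) = -1 := by
    intro z
    have := hψ.sq (quad α z)
    exact mul_self_eq_one_iff.1 this
  -- pointwise
  have h1 : ∀ z, (1 - ψ (quad α z)) / 2 ≤ -ψ (quad α z) * (2 * a z - 2 ^ W) := by
    intro z
    rcases hpm z with h | h
    · rw [h]
      have h3 : ¬ (2 ^ W < 2 * Nat.card {w // (P w).Accepts T z}) := by
        rw [← hP z, h]
        norm_num
      push Not at h3
      rw [hcard] at h3
      have h4 : 2 * a z ≤ 2 ^ W := by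
        show 2 * ((fil fun w => (P w).Accepts T z).card : ℝ) ≤ 2 ^ W
        exact_mod_cast h3
      linarith
    · rw [h]
      have h3 := (hP z).1 h
      rw [hcard] at h3
      have h4 : (2:ℝ) ^ W + 1 ≤ 2 * a z := by
        show (2:ℝ) ^ W + 1 ≤ 2 * ((fil fun w => (P w).Accepts T z).card : ℝ)
        exact_mod_cast h3
      linarith
  have h5 := Finset.sum_le_sum fun z (_ : z ∈ (univ : Finset (Fin n → K))) => h1 z
  have h6 : ∑ z : Fin n → K, (1 - ψ (quad α z)) / 2 = N / 2 - (∑ z, ψ (quad α z)) / 2 := by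
    rw [← Finset.sum_div, Finset.sum_sub_distrib, Finset.sum_const, card_univ, Fintype.card_fun,
      Fintype.card_fin, nsmul_eq_mul, mul_one, hN]
    push_cast
    ring
  have h7 : ∑ z : Fin n → K, -ψ (quad α z) * (2 * a z - 2 ^ W) =
      -2 * (∑ z, ψ (quad α z) * a z) + 2 ^ W * ∑ z, ψ (quad α z) := by
    rw [Finset.mul_sum, Finset.mul_sum, ← Finset.sum_add_distrib]
    exact Finset.sum_congr rfl fun z _ => by ring
  have h8 : ∑ z, ψ (quad α z) * a z = ∑ w, ∑ z ∈ fil ((P w).Accepts T), ψ (quad α z) := by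
    have e1 : ∀ z, ψ (quad α z) * a z = ∑ w, if (P w).Accepts T z then ψ (quad α z) else 0 := by
      intro z
      rw [← Finset.sum_filter, Finset.sum_const, nsmul_eq_mul, mul_comm]
      congr 3
    rw [Finset.sum_congr rfl fun z _ => e1 z, Finset.sum_comm]
    refine Finset.sum_congr rfl fun w _ => ?_
    rw [← Finset.sum_filter]
    congr 1
  have h9 : |∑ w, ∑ z ∈ fil ((P w).Accepts T), ψ (quad α z)| ≤ 2 ^ W * D := by
    refine (Finset.abs_sum_le_sum_abs _ _).trans ((Finset.sum_le_sum fun w _ => hD w).trans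
      (le_of_eq ?_))
    rw [Finset.sum_const, card_univ, Fintype.card_fin, nsmul_eq_mul]
    push_cast
    rfl
  rw [h6, h7, h8] at h5
  have h10 := abs_le.1 h9
  have h11 := abs_le.1 hD0
  have hW : (1:ℝ) ≤ 2 ^ W := one_le_pow₀ (by norm_num)
  have hD00 : 0 ≤ D0 := (abs_nonneg _).trans hD0
  have h12 : (2:ℝ) ^ W * ∑ z : Fin n → K, ψ (quad α z) ≤ 2 ^ W * D0 :=
    mul_le_mul_of_nonneg_left h11.2 (by positivity)
  nlinarith [h10.1, h11.2, h11.1]

/-- the lower bound -/
theorem pp_lower {ψ : K → ℝ} (hψ : IsChar ψ) {α : Fin n → K} (hα : Function.Injective α)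
    (h2 : ∀ x : K, x + x = 0) (hn : 0 < n) (W T : ℕ)
    (P : Fin (2 ^ W) → Mach (Fin n) K V)
    (hP : ∀ z, ψ (quad α z) = -1 ↔ 2 ^ W < 2 * Nat.card {w // (P w).Accepts T z}) :
    (n : ℝ) * (Real.logb 2 (n / ((Real.logb 2 (Fintype.card V) + 1) * (W + 1))) - 128) ≤
      32 * T := by
  classical
  by_contra hcon
  push Not at hcon
  have hn0 : (0:ℝ) < n := by exact_mod_cast hn
  have hl2 : 0 < Real.log 2 := Real.log_pos (by norm_num)
  -- memory
  have hV : Nonempty V := ⟨(P ⟨0, by positivity⟩).start⟩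
  have hVc : (1:ℝ) ≤ Fintype.card V := by exact_mod_cast Fintype.card_pos
  set s : ℝ := Real.logb 2 (Fintype.card V) with hs
  have hs0 : 0 ≤ s := Real.logb_nonneg (by norm_num) hVc
  have hVs : (Fintype.card V : ℝ) = Real.exp (s * Real.log 2) := by
    rw [hs, Real.logb, div_mul_cancel₀ _ hl2.ne', Real.exp_log (by linarith)]
  set u : ℝ := (s + 1) * (W + 1) with hu
  have hu1 : 1 ≤ u := by
    rw [hu]
    have : (0:ℝ) ≤ W := Nat.cast_nonneg W
    nlinarith
  have hu0 : 0 < u := by linarith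
  set R : ℝ := n / u with hR
  have hR0 : 0 < R := by rw [hR]; positivity
  have hRn : R ≤ n := div_le_self hn0.le hu1
  set y : ℝ := Real.logb 2 R with hy
  have hy128 : 128 < y := by
    by_contra h
    push Not at h
    have h3 : (n : ℝ) * (y - 128) ≤ 0 := mul_nonpos_of_nonneg_of_nonpos hn0.le (by linarith)
    have : (0:ℝ) ≤ T := Nat.cast_nonneg T
    linarith
  -- the parameter `k`
  obtain ⟨k, hk1, hk2⟩ : ∃ k : ℕ, 16 * ((k : ℝ) + 8) ≤ y ∧ y < 16 * ((k : ℝ) + 9) := by
    refine ⟨⌊y / 16⌋₊ - 8, ?_, ?_⟩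
    · have h3 : (8:ℕ) ≤ ⌊y / 16⌋₊ := Nat.le_floor (by push_cast; linarith)
      rw [Nat.cast_sub h3]
      have h4 : (⌊y / 16⌋₊ : ℝ) ≤ y / 16 := Nat.floor_le (by linarith)
      push_cast
      linarith
    · have h3 : (8:ℕ) ≤ ⌊y / 16⌋₊ := Nat.le_floor (by push_cast; linarith)
      rw [Nat.cast_sub h3]
      have h4 : y / 16 < (⌊y / 16⌋₊ : ℝ) + 1 := Nat.lt_floor_add_one _
      push_cast
      linarith
  have hTk : 2 * T ≤ n * (k + 1) := by
    have : (2:ℝ) * T ≤ n * (k + 1) := by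
      have h3 : (n : ℝ) * (y - 128) ≤ n * (16 * (k + 1)) := by
        refine mul_le_mul_of_nonneg_left ?_ hn0.le
        linarith
      linarith
    exact_mod_cast this
  -- powers of two
  have hpow : ((2:ℝ) ^ (16 * k + 128)) * u ≤ n := by
    have h3 : (2:ℝ) ^ (16 * k + 128) ≤ R := by
      rw [← Real.rpow_natCast, ← Real.le_logb_iff_rpow_le (by norm_num) hR0, ← hy]
      push_cast
      linarith
    rw [hR, le_div_iff₀ hu0] at h3
    exact h3
  have hk1' : ((k : ℝ) + 1) ≤ 2 ^ k := by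
    have := Nat.lt_two_pow_self (n := k)
    exact_mod_cast this
  have hW0 : (0:ℝ) ≤ W := Nat.cast_nonneg W
  have hWu : (W : ℝ) + 1 ≤ u := by rw [hu]; nlinarith
  set r : ℕ := 4096 * 4 ^ k * (k + 1) ^ 2 * (W + 1) with hr
  have hrR : (r : ℝ) = 4096 * 4 ^ k * (k + 1) ^ 2 * (W + 1) := by rw [hr]; push_cast; ring
  have hr1 : (1:ℝ) ≤ r := by
    have : 1 ≤ r := by
      rw [hr]
      exact Nat.succ_le_of_lt (by positivity)
    exact_mod_cast this
  have hr0 : (0:ℝ) < r := by linarith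
  have hru : (r : ℝ) * (s + 1) ≤ 2 ^ (4 * k + 12) * u := by
    have h3 : ((k : ℝ) + 1) ^ 2 ≤ (2 ^ k) ^ 2 := pow_le_pow_left₀ (by positivity) hk1' 2
    calc (r : ℝ) * (s + 1) = 4096 * 4 ^ k * (k + 1) ^ 2 * u := by rw [hrR, hu]; ring
      _ ≤ 4096 * 4 ^ k * (2 ^ k) ^ 2 * u := by gcongr
      _ = 2 ^ (4 * k + 12) * u := by
        have e4 : (4:ℝ) ^ k = 2 ^ k * 2 ^ k := by rw [← mul_pow]; norm_num
        have e5 : (2:ℝ) ^ (4 * k + 12) = (2 ^ k) ^ 4 * 4096 := by
          rw [pow_add, mul_comm 4 k, pow_mul]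
          norm_num
        rw [e4, e5]
        ring
  have hrs : (r : ℝ) ≤ r * (s + 1) := by nlinarith
  have hrn : (r : ℝ) ≤ n := by
    refine (hrs.trans hru).trans (le_trans ?_ hpow)
    gcongr
    · norm_num
    · omega
    · norm_num
  set L : ℕ := T / r + 1 with hL
  have hL0 : 0 < L := by rw [hL]; exact Nat.succ_pos _
  have hrpos : 0 < r := by exact_mod_cast hr0
  have hTL : T ≤ r * L := by
    rw [hL]
    have := Nat.div_add_mod T r
    have h3 := Nat.mod_lt T hrpos
    have h4 : r * (T / r + 1) = r * (T / r) + r := by ring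
    omega
  -- variance
  set σ : ℝ := r * (L : ℝ) ^ 2 + n with hσ
  have hσ0 : 0 < σ := by rw [hσ]; positivity
  set c : ℝ := (k : ℝ) + 1 with hc
  have hc1 : 1 ≤ c := by rw [hc]; have : (0:ℝ) ≤ k := Nat.cast_nonneg k; linarith
  have hσr : σ * r ≤ 4 * c ^ 2 * n ^ 2 := by
    have hLr : (L : ℝ) ≤ T / r + 1 := by
      rw [hL]
      push_cast
      have : ((T / r : ℕ) : ℝ) ≤ (T : ℝ) / r := Nat.cast_div_le
      linarith
    have hrL : (r : ℝ) * L ≤ T + r := by
      calc (r : ℝ) * L ≤ r * (T / r + 1) := mul_le_mul_of_nonneg_left hLr hr0.le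
        _ = T + r := by field_simp
    have hTr : (T : ℝ) ≤ n * c / 2 := by
      have : ((2 * T : ℕ) : ℝ) ≤ ((n * (k + 1) : ℕ) : ℝ) := by exact_mod_cast hTk
      push_cast at this
      rw [hc]
      linarith
    have h5 : (r : ℝ) * L ≤ n * c / 2 + n := by linarith
    have h6 : ((r : ℝ) * L) ^ 2 ≤ (n * c / 2 + n) ^ 2 := pow_le_pow_left₀ (by positivity) h5 2
    have h7 : (n : ℝ) * r ≤ n * n := mul_le_mul_of_nonneg_left hrn hn0.le
    calc σ * r = ((r : ℝ) * L) ^ 2 + n * r := by rw [hσ]; ring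
      _ ≤ (n * c / 2 + n) ^ 2 + n * n := add_le_add h6 h7
      _ = n ^ 2 * ((c / 2 + 1) ^ 2 + 1) := by ring
      _ ≤ n ^ 2 * (4 * c ^ 2) := by
        refine mul_le_mul_of_nonneg_left ?_ (by positivity)
        nlinarith
      _ = _ := by ring
  set μ : ℝ := n / 2 ^ (k + 3) with hμ
  have hμ0 : 0 < μ := by rw [hμ]; positivity
  have hE : (W : ℝ) + 8 ≤ μ ^ 2 / (2 * σ) := by
    rw [le_div_iff₀ (by positivity)]
    have h3 : (r : ℝ) = 8 * (c ^ 2 * 64 * 4 ^ k * (8 * (W + 1))) := by rw [hrR, hc]; ring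
    have h4 : 8 * (c ^ 2 * 64 * 4 ^ k) * (W + 8) ≤ r := by
      rw [h3]
      have : (W : ℝ) + 8 ≤ 8 * (W + 1) := by linarith
      have h5 : (0:ℝ) ≤ 8 * (c ^ 2 * 64 * 4 ^ k) := by positivity
      nlinarith [mul_le_mul_of_nonneg_left this h5]
    have h5 : μ ^ 2 * (64 * 4 ^ k) = n ^ 2 := by
      rw [hμ, div_pow]
      have : ((2:ℝ) ^ (k + 3)) ^ 2 = 64 * 4 ^ k := by
        rw [← pow_mul, show (k + 3) * 2 = 2 * k + 6 by ring, pow_add, pow_mul]
        norm_num
        ring
      rw [this]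
      field_simp
    -- multiply by `r`
    refine le_of_mul_le_mul_right ?_ hr0
    calc ((W : ℝ) + 8) * (2 * σ) * r = 2 * (W + 8) * (σ * r) := by ring
      _ ≤ 2 * (W + 8) * (4 * c ^ 2 * n ^ 2) := mul_le_mul_of_nonneg_left hσr (by positivity)
      _ = (8 * (c ^ 2 * 64 * 4 ^ k) * (W + 8)) * μ ^ 2 := by rw [← h5]; ring
      _ ≤ r * μ ^ 2 := mul_le_mul_of_nonneg_right h4 (by positivity)
      _ = μ ^ 2 * r := mul_comm _ _
  -- the character
  have hinj : n ≤ Fintype.card K := by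
    have := Fintype.card_le_of_injective α hα
    rwa [Fintype.card_fin] at this
  have hq : (n : ℝ) ≤ Fintype.card K := by exact_mod_cast hinj
  have hq0 : (0:ℝ) < Fintype.card K := by linarith
  set l : ℝ := Real.log (Fintype.card K) / 16 with hl
  have hll : 16 * l = Real.log (Fintype.card K) := by rw [hl]; ring
  have hlk : ((k : ℝ) + 8) * Real.log 2 ≤ l := by
    have h3 : y * Real.log 2 ≤ Real.log (Fintype.card K) := by
      have h4 : y * Real.log 2 = Real.log R := by
        rw [hy, Real.logb, div_mul_cancel₀ _ hl2.ne']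
      rw [h4]
      exact Real.log_le_log hR0 (hRn.trans hq)
    have h5 : 16 * ((k : ℝ) + 8) * Real.log 2 ≤ y * Real.log 2 :=
      mul_le_mul_of_nonneg_right hk1 hl2.le
    rw [hl]
    linarith
  have hl22 : (1 / 2 : ℝ) ≤ Real.log 2 := by
    have := Real.log_two_gt_d9
    linarith
  have hk0 : (0:ℝ) ≤ k := Nat.cast_nonneg k
  have hl1 : 4 ≤ l := by
    have : (4:ℝ) ≤ ((k : ℝ) + 8) * Real.log 2 := by nlinarith
    linarith
  have hl0 : 0 ≤ l := by linarith
  have hel : (n : ℝ) * Real.exp (-l) ≤ l * μ / 2 := by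
    have h3 : Real.exp (-l) ≤ 1 / 2 ^ (k + 8) := by
      have h4 : (2:ℝ) ^ (k + 8) ≤ Real.exp l := by
        have : (2:ℝ) ^ (k + 8) = Real.exp (((k : ℝ) + 8) * Real.log 2) := by
          rw [mul_comm, Real.exp_mul, Real.exp_log (by norm_num), ← Real.rpow_natCast]
          push_cast
          rfl
        rw [this]
        exact Real.exp_le_exp.2 hlk
      rw [Real.exp_neg, one_div]
      exact inv_anti₀ (by positivity) h4
    calc (n : ℝ) * Real.exp (-l) ≤ n * (1 / 2 ^ (k + 8)) :=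
          mul_le_mul_of_nonneg_left h3 hn0.le
      _ = μ / 32 := by
          rw [hμ, show k + 8 = (k + 3) + 5 by ring, pow_add]
          field_simp
          norm_num
      _ ≤ l * μ / 2 := by nlinarith
  -- put together
  have hD : ∀ w, |∑ z ∈ fil ((P w).Accepts T), ψ (quad α z)| ≤
      (Fintype.card K : ℝ) ^ n * (4 * Real.exp (-((W : ℝ) + 8))) +
      (Fintype.card V : ℝ) ^ (r + 1) * ((Fintype.card K : ℝ) ^ n * Real.exp (-(l * μ))) := by
    intro w
    obtain ⟨ω, hω⟩ := exists_col (K := K) (P w) hL0 (r := r) (T := T) μ σ ((W : ℝ) + 8) hμ0 hσ0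
      le_rfl (fun z => by
        have h3 := mean_ge (segs (P w) T L r z) T k (sum_segs (P w) T L r z)
          (by rw [Fintype.card_fin]; exact hTk)
        rw [Fintype.card_fin] at h3
        refine le_trans (le_of_eq ?_) h3
        rw [hμ, show k + 3 = (k + 2) + 1 by ring, pow_succ]
        field_simp) hE
    refine (corr hψ hα h2 (P w) hL0 hTL ω μ l hl0 hll).trans (add_le_add hω ?_)
    refine mul_le_mul_of_nonneg_left (mul_le_mul_of_nonneg_left ?_ (by positivity)) (by positivity)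
    rw [Real.exp_le_exp]
    linarith
  have hcount := pp_count hψ W T P hP _ _ hD (whole hψ hα h2)
  set N : ℝ := (Fintype.card K : ℝ) ^ n with hN
  have hN0 : 0 < N := by rw [hN]; positivity
  set Y : ℝ := 2 ^ W with hY
  have hYe : Y = Real.exp (W * Real.log 2) := by
    rw [hY, mul_comm, Real.exp_mul, Real.exp_log (by norm_num), Real.rpow_natCast]
  have h16 : Real.exp (-(4 * Real.log 2)) = 1 / 16 := by
    rw [Real.exp_neg, mul_comm, Real.exp_mul, Real.exp_log (by norm_num)]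
    norm_num
  -- the three terms
  have t1 : 8 * Y * Real.exp (-((W : ℝ) + 8)) ≤ 1 / 8 := by
    have h3 : Y ≤ Real.exp W := by
      rw [hYe, Real.exp_le_exp]
      have : Real.log 2 ≤ 1 := by have := Real.log_two_lt_d9; linarith
      nlinarith
    have h4 : Real.exp (-((W : ℝ) + 8)) = Real.exp (-(W:ℝ)) * Real.exp (-8) := by
      rw [← Real.exp_add]; congr 1; ring
    have h5 : Y * Real.exp (-(W:ℝ)) ≤ 1 := by
      calc Y * Real.exp (-(W:ℝ)) ≤ Real.exp W * Real.exp (-(W:ℝ)) :=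
            mul_le_mul_of_nonneg_right h3 (Real.exp_pos _).le
        _ = 1 := by rw [← Real.exp_add]; simp
    have h6 : Real.exp (-8) ≤ 1 / 64 := by
      have h7 : Real.exp (-8) ≤ Real.exp (-(6 * Real.log 2)) := by
        rw [Real.exp_le_exp]
        have := Real.log_two_lt_d9
        linarith
      have h8 : Real.exp (-(6 * Real.log 2)) = 1 / 64 := by
        rw [Real.exp_neg, mul_comm, Real.exp_mul, Real.exp_log (by norm_num)]
        norm_num
      rw [h8] at h7
      exact h7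
    rw [h4]
    have h9 := Real.exp_pos (-8)
    calc 8 * Y * (Real.exp (-(W:ℝ)) * Real.exp (-8)) =
          8 * (Y * Real.exp (-(W:ℝ))) * Real.exp (-8) := by ring
      _ ≤ 8 * 1 * (1 / 64) := by gcongr
      _ = 1 / 8 := by norm_num
  have hWr : (W : ℝ) + 4 ≤ r := by
    rw [hrR]
    have h3 : (1:ℝ) ≤ 4 ^ k := one_le_pow₀ (by norm_num)
    have h4 : (1:ℝ) ≤ ((k:ℝ) + 1) ^ 2 := one_le_pow₀ (by linarith)
    have h5 : (1:ℝ) ≤ 4 ^ k * ((k:ℝ) + 1) ^ 2 := by nlinarith
    have h6 : (4096:ℝ) * (W + 1) ≤ 4096 * 4 ^ k * ((k:ℝ) + 1) ^ 2 * (W + 1) := by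
      nlinarith [mul_le_mul_of_nonneg_right h5 (by positivity : (0:ℝ) ≤ 4096 * ((W:ℝ) + 1))]
    linarith
  have t2 : 2 * Y * ((Fintype.card V : ℝ) ^ (r + 1) * Real.exp (-(l * μ))) ≤ 1 / 8 := by
    have h3 : ((W : ℝ) + 4 + (r + 1) * s) * Real.log 2 ≤ l * μ := by
      have h4 : (W : ℝ) + 4 + (r + 1) * s ≤ 2 * (r * (s + 1)) := by nlinarith
      have h5 : 2 * ((r : ℝ) * (s + 1)) ≤ μ := by
        refine (mul_le_mul_of_nonneg_left hru (by norm_num)).trans ?_
        rw [hμ, le_div_iff₀ (by positivity)]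
        calc 2 * (2 ^ (4 * k + 12) * u) * 2 ^ (k + 3) = 2 ^ (5 * k + 16) * u := by
              rw [show 5 * k + 16 = 1 + (4 * k + 12) + (k + 3) by ring, pow_add, pow_add]
              ring
          _ ≤ 2 ^ (16 * k + 128) * u := by
              gcongr
              · norm_num
              · norm_num
              · norm_num
          _ ≤ n := hpow
      have h6 : Real.log 2 ≤ 1 := by have := Real.log_two_lt_d9; linarith
      have h7 : (0:ℝ) ≤ (W : ℝ) + 4 + (r + 1) * s := by positivity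
      nlinarith
    have h8 : Y * ((Fintype.card V : ℝ) ^ (r + 1) * Real.exp (-(l * μ))) ≤
        Real.exp (-(4 * Real.log 2)) := by
      rw [hYe, hVs, ← Real.exp_nat_mul, ← Real.exp_add, ← Real.exp_add, Real.exp_le_exp]
      push_cast
      linarith
    rw [h16] at h8
    linarith
  have t3 : 2 * Y * Real.exp (-(Real.log (Fintype.card K) / 2 * (n / 2 : ℕ))) ≤ 1 / 8 := by
    have h3 : ((W : ℝ) + 4) * Real.log 2 ≤ Real.log (Fintype.card K) / 2 * (n / 2 : ℕ) := by
      have h4 : (32:ℝ) ≤ Real.log (Fintype.card K) / 2 := by rw [← hll]; linarith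
      have h5 : (n : ℝ) ≤ 2 * ((n / 2 : ℕ) : ℝ) + 1 := by
        have : n ≤ 2 * (n / 2) + 1 := by omega
        exact_mod_cast this
      have h6 : Real.log 2 ≤ 1 := by have := Real.log_two_lt_d9; linarith
      have h7 : (W : ℝ) + 4 ≤ n := hWr.trans hrn
      have h8 : (0:ℝ) ≤ ((n / 2 : ℕ) : ℝ) := Nat.cast_nonneg _
      have h9 : (4:ℝ) ≤ n := by linarith
      nlinarith
    have h8 : Y * Real.exp (-(Real.log (Fintype.card K) / 2 * (n / 2 : ℕ))) ≤
        Real.exp (-(4 * Real.log 2)) := by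
      rw [hYe, ← Real.exp_add, Real.exp_le_exp]
      linarith
    rw [h16] at h8
    linarith
  have hfin : N / 2 ≤ N * (3 / 8) := by
    refine hcount.trans ?_
    have e1 : 2 * Y * (N * (4 * Real.exp (-((W : ℝ) + 8))) +
        (Fintype.card V : ℝ) ^ (r + 1) * (N * Real.exp (-(l * μ)))) +
        2 * Y * (N * Real.exp (-(Real.log (Fintype.card K) / 2 * (n / 2 : ℕ)))) =
        N * (8 * Y * Real.exp (-((W : ℝ) + 8)) +
          2 * Y * ((Fintype.card V : ℝ) ^ (r + 1) * Real.exp (-(l * μ))) +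
          2 * Y * Real.exp (-(Real.log (Fintype.card K) / 2 * (n / 2 : ℕ)))) := by ring
    rw [e1]
    refine mul_le_mul_of_nonneg_left ?_ hN0.le
    linarith
  linarith

end Pool.Agent.Lib_helper26.TQ
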