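import Pool.Agent.Lib_helper26.TQ.Defs

/-!
# Character sums of the quadratic form over sets of inputs closed under mixing
-/

set_option autoImplicit false
set_option linter.unusedSectionVars false

namespace Pool.Agent.Lib_helper26.TQ

open Finset Polynomial

variable {K : Type} [Field K] [Fintype K] [DecidableEq K] {n : ℕ}

/-- Cauchy matrices are injective -/
theorem cauchy {α : Fin n → K} (hα : Function.Injective α) (h2 : ∀ x : K, x + x = 0)
    (A B : Finset (Fin n)) (hAB : Disjoint A B) (hc : B.card ≤ A.card) (d : Fin n → K)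
    (h : ∀ a ∈ A, ∑ b ∈ B, d b / (α a + α b) = 0) : ∀ b ∈ B, d b = 0 := by
  classical
  have hne : ∀ a b, a ≠ b → α a + α b ≠ 0 := by
    intro a b hab h0
    apply hab
    apply hα
    have := h2 (α b)
    linear_combination h0 - this
  set p : K[X] := ∑ b ∈ B, C (d b) * ∏ c ∈ B.erase b, (X + C (α c)) with hp
  have hdeg : p.degree < B.card := by
    rcases B.eq_empty_or_nonempty with rfl | hB
    · rw [hp]
      simp
    refine (Polynomial.degree_sum_le _ _).trans_lt ?_
    rw [Finset.sup_lt_iff (WithBot.bot_lt_coe _)]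
    intro b hb
    have h1 : (∏ c ∈ B.erase b, (X + C (α c))).degree = (((B.erase b).card : ℕ) : WithBot ℕ) := by
      rw [Polynomial.degree_prod, Finset.sum_congr rfl (fun c _ => Polynomial.degree_X_add_C (α c))]
      simp
    have h3 : (C (d b) * ∏ c ∈ B.erase b, (X + C (α c))).degree ≤ (((B.erase b).card : ℕ) : WithBot ℕ) := by
      refine (Polynomial.degree_mul_le _ _).trans ?_
      rw [h1]
      calc (C (d b)).degree + ((B.erase b).card : WithBot ℕ) ≤ 0 + ((B.erase b).card : WithBot ℕ) :=
            add_le_add_left Polynomial.degree_C_le _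
        _ = _ := zero_add _
    refine h3.trans_lt ?_
    have : (B.erase b).card < B.card := Finset.card_erase_lt_of_mem hb
    exact_mod_cast this
  have hzero : p = 0 := by
    refine Polynomial.eq_zero_of_degree_lt_of_eval_finset_eq_zero (A.image α) ?_ ?_
    · refine hdeg.trans_le ?_
      rw [Finset.card_image_of_injective _ hα]
      exact_mod_cast hc
    · intro x hx
      obtain ⟨a, ha, rfl⟩ := Finset.mem_image.1 hx
      rw [hp, Polynomial.eval_finsetSum]
      have h5 : ∀ b ∈ B, (C (d b) * ∏ c ∈ B.erase b, (X + C (α c))).eval (α a) =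
          (∏ c ∈ B, (α a + α c)) * (d b / (α a + α b)) := by
        intro b hb
        have hab : a ≠ b := fun h => (Finset.disjoint_left.1 hAB ha) (h ▸ hb)
        rw [Polynomial.eval_mul, Polynomial.eval_C, Polynomial.eval_prod, ← Finset.mul_prod_erase _ _ hb]
        simp only [Polynomial.eval_add, Polynomial.eval_X, Polynomial.eval_C]
        have := hne a b hab
        field_simp
      rw [Finset.sum_congr rfl h5, ← Finset.mul_sum, h a ha, mul_zero]
  intro b hb
  have h6 : p.eval (α b) = d b * ∏ c ∈ B.erase b, (α b + α c) := by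
    rw [hp, Polynomial.eval_finsetSum, Finset.sum_eq_single b]
    · rw [Polynomial.eval_mul, Polynomial.eval_C, Polynomial.eval_prod]
      simp only [Polynomial.eval_add, Polynomial.eval_X, Polynomial.eval_C]
    · intro b' hb' hbb'
      rw [Polynomial.eval_mul, Polynomial.eval_prod]
      rw [Finset.prod_eq_zero (Finset.mem_erase.2 ⟨Ne.symm hbb', hb⟩), mul_zero]
      simp only [Polynomial.eval_add, Polynomial.eval_X, Polynomial.eval_C]
      exact h2 _
    · intro h
      exact absurd hb h
  rw [hzero, Polynomial.eval_zero] at h6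
  have h7 : ∏ c ∈ B.erase b, (α b + α c) ≠ 0 := by
    rw [Finset.prod_ne_zero_iff]
    intro c hc
    exact hne b c (Ne.symm (Finset.mem_erase.1 hc).1)
  exact (mul_eq_zero.1 h6.symm).resolve_right h7

/-- the bilinear form -/
def bil (α u v : Fin n → K) : K := ∑ a, ∑ b, u a * v b / (α a + α b)

theorem quad_add {α : Fin n → K} (h2 : ∀ x : K, x + x = 0) (u v : Fin n → K) :
    quad α (u + v) = quad α u + quad α v + bil α u v := by
  classical
  have h1 : bil α u v = ∑ a, ∑ b ∈ Finset.Ioi a, (u a * v b + u b * v a) / (α a + α b) := by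
    unfold bil
    have hsplit : ∀ a : Fin n, (univ : Finset (Fin n)) = (Finset.Iio a ∪ {a}) ∪ Finset.Ioi a := by
      intro a
      ext b
      simp only [mem_univ, mem_union, mem_Iio, mem_singleton, mem_Ioi, true_iff]
      rcases lt_trichotomy b a with h | h | h
      · exact Or.inl (Or.inl h)
      · exact Or.inl (Or.inr h)
      · exact Or.inr h
    have h3 : ∀ a, ∑ b, u a * v b / (α a + α b) =
        ∑ b ∈ Finset.Iio a, u a * v b / (α a + α b) + ∑ b ∈ Finset.Ioi a, u a * v b / (α a + α b) := by
      intro a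
      rw [hsplit a, Finset.sum_union, Finset.sum_union, Finset.sum_singleton, h2 (α a), div_zero,
        add_zero]
      · rw [Finset.disjoint_singleton_right]
        simp
      · rw [Finset.disjoint_left]
        intro b hb hb'
        rw [mem_Ioi] at hb'
        rw [mem_union, mem_Iio, mem_singleton] at hb
        rcases hb with h | h
        · exact absurd (h.trans hb') (lt_irrefl _)
        · rw [h] at hb'
          exact absurd hb' (lt_irrefl _)
    simp only [h3, Finset.sum_add_distrib, add_div]
    rw [add_comm]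
    congr 1
    have h4 : ∀ f : Fin n → Fin n → K, ∑ a, ∑ b ∈ Finset.Iio a, f a b =
        ∑ b, ∑ a ∈ Finset.Ioi b, f a b := by
      intro f
      refine Finset.sum_comm' fun a b => ?_
      simp
    rw [h4]
    refine Finset.sum_congr rfl fun a _ => Finset.sum_congr rfl fun b _ => ?_
    rw [add_comm (α b)]
  rw [h1]
  unfold quad
  rw [← Finset.sum_add_distrib, ← Finset.sum_add_distrib]
  refine Finset.sum_congr rfl fun a _ => ?_
  rw [← Finset.sum_add_distrib, ← Finset.sum_add_distrib]
  refine Finset.sum_congr rfl fun b _ => ?_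
  rw [Pi.add_apply, Pi.add_apply, ← add_div, ← add_div]
  congr 1
  ring

theorem bil_add_right (α u v w : Fin n → K) : bil α u (v + w) = bil α u v + bil α u w := by
  unfold bil
  rw [← Finset.sum_add_distrib]
  refine Finset.sum_congr rfl fun a _ => ?_
  rw [← Finset.sum_add_distrib]
  refine Finset.sum_congr rfl fun b _ => ?_
  rw [Pi.add_apply]
  ring

/-- the input `c` with the cells of `B` replaced -/
def mix (B : Finset (Fin n)) (c y : Fin n → K) : Fin n → K := fun i => if i ∈ B then y i else c i

/-- an additive character with values `1` and `-1` -/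
structure IsChar (ψ : K → ℝ) : Prop where
  add : ∀ x y, ψ (x + y) = ψ x * ψ y
  sq : ∀ x, ψ x * ψ x = 1
  zero : ∀ c, c ≠ 0 → ∑ x, ψ (x * c) = 0

theorem IsChar.map_zero {ψ : K → ℝ} (h : IsChar ψ) : ψ 0 = 1 := by
  have h1 := h.add 0 0
  rw [add_zero, h.sq 0] at h1
  exact h1

theorem IsChar.map_sum {ψ : K → ℝ} (h : IsChar ψ) {ι : Type} (s : Finset ι) (f : ι → K) :
    ψ (∑ i ∈ s, f i) = ∏ i ∈ s, ψ (f i) := by
  classical
  induction s using Finset.induction_on with
  | empty => simp [h.map_zero]
  | insert a s ha ih => rw [Finset.sum_insert ha, Finset.prod_insert ha, h.add, ih]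

theorem IsChar.abs {ψ : K → ℝ} (h : IsChar ψ) (x : K) : |ψ x| = 1 := by
  have h1 := h.sq x
  have h2 : |ψ x| * |ψ x| = 1 := by rw [← abs_mul, h1, abs_one]
  nlinarith [abs_nonneg (ψ x)]

/-- sum over all vectors supported in `A` -/
theorem IsChar.sum_vec {ψ : K → ℝ} (h : IsChar ψ) (A : Finset (Fin n)) (c : Fin n → K)
    (hc : ∃ a ∈ A, c a ≠ 0) : ∑ x : Fin n → K, ψ (∑ a ∈ A, x a * c a) = 0 := by
  classical
  have h1 : ∀ x : Fin n → K, ψ (∑ a ∈ A, x a * c a) =
      ∏ a, (fun (a : Fin n) (t : K) => if a ∈ A then ψ (t * c a) else 1) a (x a) := by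
    intro x
    rw [h.map_sum]
    simp only
    rw [Finset.prod_ite, Finset.prod_const_one, mul_one]
    congr 1
    ext a
    simp
  simp only [h1]
  have h2 := Finset.prod_univ_sum (fun _ : Fin n => (univ : Finset K))
    (fun (a : Fin n) (t : K) => if a ∈ A then ψ (t * c a) else (1:ℝ))
  rw [Fintype.piFinset_univ] at h2
  rw [← h2]
  obtain ⟨a, ha, hca⟩ := hc
  refine Finset.prod_eq_zero (mem_univ a) ?_
  simp only [if_pos ha]
  exact h.zero _ hca

end Pool.Agent.Lib_helper26.TQ
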