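import Pool.Agent.Lib_helper26.TQ.Rect
import Pool.Agent.Lib_helper26.TS.Hits

/-!
# Character sums of the quadratic form over sets of inputs closed under mixing, continued
-/

set_option autoImplicit false
set_option linter.unusedSectionVars false

namespace Pool.Agent.Lib_helper26.TQ

open Finset
open Pool.Agent.Lib_helper26.TS (fil mem_fil fil_congr card_fixed)

variable {K : Type} [Field K] [Fintype K] [DecidableEq K] {n : ℕ}

theorem mix_mix (B : Finset (Fin n)) (c y : Fin n → K) : mix B (mix B c y) (mix B y c) = c := by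
  funext i
  unfold mix
  by_cases h : i ∈ B <;> simp [h]

theorem sum_mix (B : Finset (Fin n)) (g : (Fin n → K) → ℝ) :
    ∑ c, ∑ y, g (mix B c y) = (Fintype.card K : ℝ) ^ n * ∑ z, g z := by
  let e : ((Fin n → K) × (Fin n → K)) ≃ ((Fin n → K) × (Fin n → K)) :=
    { toFun := fun p => (mix B p.1 p.2, mix B p.2 p.1)
      invFun := fun p => (mix B p.1 p.2, mix B p.2 p.1)
      left_inv := fun p => Prod.ext (mix_mix B _ _) (mix_mix B _ _)
      right_inv := fun p => Prod.ext (mix_mix B _ _) (mix_mix B _ _) }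
  have h1 : ∑ c, ∑ y, g (mix B c y) =
      ∑ p : (Fin n → K) × (Fin n → K), g (e p).1 := by
    rw [Fintype.sum_prod_type]
    rfl
  rw [h1, e.sum_comp (fun p => g p.1), Fintype.sum_prod_type]
  simp only [Finset.sum_const, card_univ, Fintype.card_fun, Fintype.card_fin, nsmul_eq_mul]
  rw [← Finset.mul_sum]
  push_cast
  rfl

theorem mix_add (B : Finset (Fin n)) (c y x : Fin n → K) (hx : ∀ i ∈ B, x i = 0) :
    mix B (c + x) y = x + mix B c y := by
  funext i
  unfold mix
  by_cases h : i ∈ B
  · simp [h, hx i h]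
  · simp [h, add_comm]

/-- the pair sum -/
theorem pair_zero {ψ : K → ℝ} (hψ : IsChar ψ) {α : Fin n → K} (hα : Function.Injective α)
    (h2 : ∀ x : K, x + x = 0) (A B : Finset (Fin n)) (hAB : Disjoint A B) (hc : B.card ≤ A.card)
    (Y : (Fin n → K) → ℝ) (hY : ∀ z x, (∀ i, i ∉ A → x i = 0) → Y (x + z) = Y z)
    (y y' : Fin n → K) (hyy : ∃ b ∈ B, y b ≠ y' b) :
    ∑ c, (Y (mix B c y) * ψ (quad α (mix B c y))) * (Y (mix B c y') * ψ (quad α (mix B c y'))) =
      0 := by
  classical
  set h : (Fin n → K) → ℝ := fun c =>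
    (Y (mix B c y) * ψ (quad α (mix B c y))) * (Y (mix B c y') * ψ (quad α (mix B c y'))) with hh
  set tl : (Fin n → K) → (Fin n → K) := fun x i => if i ∈ A then x i else 0 with htl
  have e1 : ∀ x, ∑ c, h (c + tl x) = ∑ c, h c := fun x =>
    Equiv.sum_comp (Equiv.addRight (tl x)) h
  -- the coefficients
  set δ : (Fin n → K) := fun b => y b + y' b with hδ
  set cc : Fin n → K := fun a => ∑ b ∈ B, δ b / (α a + α b) with hcc
  have hex : ∃ a ∈ A, cc a ≠ 0 := by
    by_contra hcon
    push Not at hcon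
    obtain ⟨b, hb, hbb⟩ := hyy
    have h3 := cauchy hα h2 A B hAB hc δ hcon b hb
    apply hbb
    have h4 := h2 (y' b)
    rw [hδ] at h3
    linear_combination h3 - h4
  have e2 : ∀ c x, h (c + tl x) = h c * ψ (∑ a ∈ A, x a * cc a) := by
    intro c x
    have hx0 : ∀ i ∈ B, tl x i = 0 := by
      intro i hi
      rw [htl]
      simp only
      rw [if_neg]
      exact fun hA => Finset.disjoint_left.1 hAB hA hi
    have hxA : ∀ i, i ∉ A → tl x i = 0 := by
      intro i hi
      rw [htl]
      simp only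
      rw [if_neg hi]
    rw [hh]
    simp only
    rw [mix_add B c y (tl x) hx0, mix_add B c y' (tl x) hx0, hY _ _ hxA, hY _ _ hxA, quad_add h2,
      quad_add h2, hψ.add, hψ.add, hψ.add, hψ.add]
    have h5 : ψ (∑ a ∈ A, x a * cc a) = ψ (bil α (tl x) (mix B c y)) *
        ψ (bil α (tl x) (mix B c y')) := by
      rw [← hψ.add, ← bil_add_right]
      congr 1
      unfold bil
      have h6 : ∀ a, ∑ b, tl x a * (mix B c y + mix B c y') b / (α a + α b) =
          if a ∈ A then x a * cc a else 0 := by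
        intro a
        rw [htl, hcc]
        simp only
        split_ifs with ha
        · rw [Finset.mul_sum, ← Finset.sum_filter_add_sum_filter_not univ (fun b => b ∈ B)]
          have h7 : ∑ b ∈ univ.filter (fun b => b ∉ B),
              x a * (mix B c y + mix B c y') b / (α a + α b) = 0 := by
            refine Finset.sum_eq_zero fun b hb => ?_
            have hb' := (mem_filter.1 hb).2
            have : (mix B c y + mix B c y') b = 0 := by
              rw [Pi.add_apply]
              unfold mix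
              rw [if_neg hb', if_neg hb']
              exact h2 _
            rw [this, mul_zero, zero_div]
          rw [h7, add_zero]
          have h8 : univ.filter (fun b => b ∈ B) = B := by ext b; simp
          rw [h8]
          refine Finset.sum_congr rfl fun b hb => ?_
          rw [Pi.add_apply]
          unfold mix
          rw [if_pos hb, if_pos hb, mul_div_assoc]
        · simp
      rw [Finset.sum_congr rfl fun a _ => h6 a, Finset.sum_ite_mem, univ_inter]
    rw [h5]
    have h9 := hψ.sq (quad α (tl x))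
    have : ∀ (a b p q u v w : ℝ), w * w = 1 → a * (w * p * u) * (b * (w * q * v)) =
        a * p * (b * q) * (u * v) := by
      intro a b p q u v w hw
      linear_combination (a * p * u * b * q * v) * hw
    exact this _ _ _ _ _ _ _ h9
  have h10 : (Fintype.card (Fin n → K) : ℝ) * ∑ c, h c = 0 := by
    calc (Fintype.card (Fin n → K) : ℝ) * ∑ c, h c = ∑ x : Fin n → K, ∑ c, h (c + tl x) := by
          rw [Finset.sum_congr rfl fun x _ => e1 x, Finset.sum_const, card_univ, nsmul_eq_mul]
      _ = ∑ c, ∑ x : Fin n → K, h c * ψ (∑ a ∈ A, x a * cc a) := by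
          rw [Finset.sum_comm]
          exact Finset.sum_congr rfl fun c _ => Finset.sum_congr rfl fun x _ => e2 c x
      _ = 0 := by
          refine Finset.sum_eq_zero fun c _ => ?_
          rw [← Finset.mul_sum, hψ.sum_vec A cc hex, mul_zero]
  have h11 : (Fintype.card (Fin n → K) : ℝ) ≠ 0 := by
    exact_mod_cast Fintype.card_ne_zero
  exact (mul_eq_zero.1 h10).resolve_left h11

theorem one_side {ψ : K → ℝ} (hψ : IsChar ψ) {α : Fin n → K} (hα : Function.Injective α)
    (h2 : ∀ x : K, x + x = 0) (A B : Finset (Fin n)) (hAB : Disjoint A B) (hc : B.card ≤ A.card)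
    (X Y : (Fin n → K) → ℝ) (hX : ∀ c y, X (mix B c y) = X c) (hX1 : ∀ z, |X z| ≤ 1)
    (hY1 : ∀ z, |Y z| ≤ 1) (hY : ∀ z x, (∀ i, i ∉ A → x i = 0) → Y (x + z) = Y z) :
    (∑ z, X z * (Y z * ψ (quad α z))) ^ 2 * (Fintype.card K : ℝ) ^ B.card ≤
      ((Fintype.card K : ℝ) ^ n) ^ 2 := by
  classical
  set q : ℝ := (Fintype.card K : ℝ) with hq
  have hq0 : 0 < q := by rw [hq]; exact_mod_cast Fintype.card_pos
  set N : ℝ := q ^ n with hN
  have hN0 : 0 < N := by rw [hN]; positivity
  set S := ∑ z, X z * (Y z * ψ (quad α z)) with hS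
  set g : (Fin n → K) → (Fin n → K) → ℝ := fun c y => Y (mix B c y) * ψ (quad α (mix B c y)) with hg
  have hcard : (Fintype.card (Fin n → K) : ℝ) = N := by
    rw [Fintype.card_fun, Fintype.card_fin, hN, hq]
    push_cast
    rfl
  have h1 : N * S = ∑ c, X c * ∑ y, g c y := by
    rw [hS, hN, hq, ← sum_mix B (fun z => X z * (Y z * ψ (quad α z)))]
    refine Finset.sum_congr rfl fun c _ => ?_
    rw [Finset.mul_sum]
    exact Finset.sum_congr rfl fun y _ => by rw [hX]
  have h3 : (N * S) ^ 2 ≤ N * ∑ c, (∑ y, g c y) ^ 2 := by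
    rw [h1]
    refine (Finset.sum_mul_sq_le_sq_mul_sq univ X (fun c => ∑ y, g c y)).trans ?_
    refine mul_le_mul_of_nonneg_right ?_ (Finset.sum_nonneg fun _ _ => sq_nonneg _)
    rw [← hcard, ← card_univ, ← nsmul_one, ← Finset.sum_const]
    refine Finset.sum_le_sum fun c _ => ?_
    rw [← sq_abs]
    exact pow_le_one₀ (abs_nonneg _) (hX1 c)
  have h4 : ∑ c, (∑ y, g c y) ^ 2 = ∑ y, ∑ y', ∑ c, g c y * g c y' := by
    have : ∀ c, (∑ y, g c y) ^ 2 = ∑ y, ∑ y', g c y * g c y' := by
      intro c
      rw [sq, Finset.sum_mul_sum]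
    rw [Finset.sum_congr rfl fun c _ => this c, Finset.sum_comm]
    exact Finset.sum_congr rfl fun y _ => Finset.sum_comm
  have hg1 : ∀ c y, |g c y| ≤ 1 := by
    intro c y
    rw [hg]
    simp only
    rw [abs_mul, hψ.abs, mul_one]
    exact hY1 _
  have h5 : ∀ y y', ∑ c, g c y * g c y' ≤ if (∀ b ∈ B, y' b = y b) then N else 0 := by
    intro y y'
    split_ifs with hyy
    · rw [← hcard, ← card_univ, ← nsmul_one, ← Finset.sum_const]
      refine Finset.sum_le_sum fun c _ => ?_
      refine (le_abs_self _).trans ?_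
      rw [abs_mul]
      exact mul_le_one₀ (hg1 c y) (abs_nonneg _) (hg1 c y')
    · push Not at hyy
      obtain ⟨b, hb, hbb⟩ := hyy
      exact (pair_zero hψ hα h2 A B hAB hc Y hY y y' ⟨b, hb, Ne.symm hbb⟩).le
  have h6 : ∀ y : Fin n → K, (∑ y' : Fin n → K, if (∀ b ∈ B, y' b = y b) then N else 0) *
      q ^ B.card = N * N := by
    intro y
    rw [← Finset.sum_filter, Finset.sum_const, nsmul_eq_mul]
    have h7 := card_fixed B y
    have h8 : (fil fun ω : Fin n → K => ∀ i ∈ B, ω i = y i) =
        univ.filter (fun y' => ∀ b ∈ B, y' b = y b) := by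
      ext ω
      rw [mem_fil, mem_filter]
      exact ⟨fun h => ⟨mem_univ _, h⟩, fun h => h.2⟩
    rw [h8, Fintype.card_fin] at h7
    have h9 : ((univ.filter (fun y' : Fin n → K => ∀ b ∈ B, y' b = y b)).card : ℝ) * q ^ B.card =
        N := by
      rw [hN, hq]
      exact_mod_cast h7
    rw [mul_right_comm, h9]
  have h10 : (∑ c, (∑ y, g c y) ^ 2) * q ^ B.card ≤ N * (N * N) := by
    rw [h4]
    calc (∑ y, ∑ y', ∑ c, g c y * g c y') * q ^ B.card
        ≤ (∑ y : Fin n → K, ∑ y' : Fin n → K, if (∀ b ∈ B, y' b = y b) then N else 0) *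
          q ^ B.card := by
          refine mul_le_mul_of_nonneg_right ?_ (by positivity)
          exact Finset.sum_le_sum fun y _ => Finset.sum_le_sum fun y' _ => h5 y y'
      _ = ∑ _y : Fin n → K, N * N := by
          rw [Finset.sum_mul]
          exact Finset.sum_congr rfl fun y _ => h6 y
      _ = N * (N * N) := by
          rw [Finset.sum_const, card_univ, nsmul_eq_mul, hcard]
  have h11 : (N * S) ^ 2 * q ^ B.card ≤ N * (N * (N * N)) := by
    calc (N * S) ^ 2 * q ^ B.card ≤ N * (∑ c, (∑ y, g c y) ^ 2) * q ^ B.card :=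
          mul_le_mul_of_nonneg_right h3 (by positivity)
      _ = N * ((∑ c, (∑ y, g c y) ^ 2) * q ^ B.card) := by ring
      _ ≤ _ := mul_le_mul_of_nonneg_left h10 hN0.le
  have h12 : (S ^ 2 * q ^ B.card) * N ^ 2 ≤ N ^ 2 * N ^ 2 := by
    calc _ = (N * S) ^ 2 * q ^ B.card := by ring
      _ ≤ N * (N * (N * N)) := h11
      _ = _ := by ring
  exact le_of_mul_le_mul_right h12 (by positivity)

end Pool.Agent.Lib_helper26.TQ
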