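import Pool.Agent.Lib_helper26.TQ.Class
import Pool.Agent.Lib_helper26.TQ.Color

/-!
# The classes of inputs of a machine are closed under mixing
-/

set_option autoImplicit false
set_option linter.unusedSectionVars false

namespace Pool.Agent.Lib_helper26.TQ

open Finset
open Pool.Agent.Lib_helper26.TS (fil mem_fil fil_congr)

variable {I A V : Type}

/-- the segments in which the cell `e` is read -/
noncomputable def segs (M : Mach I A V) (T L r : ℕ) (x : I → A) (e : I) : Finset (Fin r) :=
  fil fun j => ∃ t, t < T ∧ t / L = j.val ∧ M.query t (M.state x t) = e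

theorem mem_segs {M : Mach I A V} {T L r : ℕ} {x : I → A} {e : I} {j : Fin r} :
    j ∈ segs M T L r x e ↔ ∃ t, t < T ∧ t / L = j.val ∧ M.query t (M.state x t) = e := mem_fil

theorem sum_segs [Fintype I] (M : Mach I A V) (T L r : ℕ) (x : I → A) :
    ∑ e, (segs M T L r x e).card ≤ T := by
  classical
  rw [← Finset.card_sigma]
  have h : ∀ p : (Σ _ : I, Fin r), p ∈ (univ : Finset I).sigma (fun e => segs M T L r x e) →
      ∃ t, t < T ∧ t / L = p.2.val ∧ M.query t (M.state x t) = p.1 := by
    intro p hp
    exact mem_segs.1 (Finset.mem_sigma.1 hp).2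
  choose! f hf using h
  calc _ ≤ (range T).card := by
        refine Finset.card_le_card_of_injOn f (fun p hp => ?_) fun p hp p' hp' hpp => ?_
        · exact Finset.mem_coe.2 (mem_range.2 (hf p hp).1)
        · obtain ⟨-, h1, h2⟩ := hf p hp
          obtain ⟨-, h3, h4⟩ := hf p' hp'
          obtain ⟨e, j⟩ := p
          obtain ⟨e', j'⟩ := p'
          simp only at h1 h2 h3 h4 hpp
          have e1 : e = e' := by rw [← h2, ← h4, hpp]
          have e2 : j = j' := Fin.ext (by rw [← h1, ← h3, hpp])
          rw [e1, e2]
    _ = T := card_range T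

theorem seg_le [Fintype I] (M : Mach I A V) (T L r : ℕ) (hL : 0 < L) (x : I → A) (j : Fin r) :
    (fil fun e => j ∈ segs M T L r x e).card ≤ L := by
  classical
  have h1 : (fil fun e => j ∈ segs M T L r x e) ⊆
      (Finset.Ico (j.val * L) ((j.val + 1) * L)).image (fun t => M.query t (M.state x t)) := by
    intro e he
    have he' : j ∈ segs M T L r x e := (mem_fil (P := fun e => j ∈ segs M T L r x e)).1 he
    obtain ⟨t, ht, htj, hte⟩ := mem_segs.1 he'
    refine mem_image.2 ⟨t, ?_, hte⟩
    rw [mem_Ico]
    have := (Nat.div_eq_iff hL).1 htj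
    have h3 : (j.val + 1) * L = j.val * L + L := by ring
    have h4 : j.val * L + L - 1 < j.val * L + L := by omega
    constructor
    · exact this.1
    · rw [h3]
      have := this.2
      omega
  refine (card_le_card h1).trans (card_image_le.trans ?_)
  rw [Nat.card_Ico]
  have : (j.val + 1) * L = j.val * L + L := by ring
  omega

/-- the mixed run -/
theorem state_mix (M : Mach I A V) {T L r : ℕ} (hL : 0 < L) (ω : Oc r I) (x y z : I → A)
    (hb : ∀ j, j * L ≤ T → M.state x (j * L) = M.state y (j * L))
    (hz1 : ∀ e, (∃ j ∈ segs M T L r x e, ω (Sum.inl j) = true) → z e = x e)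
    (hz2 : ∀ e, (∃ j ∈ segs M T L r y e, ω (Sum.inl j) = false) → z e = y e) :
    ∀ t ≤ T, ∀ j : Fin r, j.val * L ≤ t → t ≤ (j.val + 1) * L →
      M.state z t = if ω (Sum.inl j) = true then M.state x t else M.state y t := by
  intro t
  induction t with
  | zero =>
    intro _ j _ _
    show M.start = if _ then M.start else M.start
    rw [ite_self]
  | succ t ih =>
    intro ht j hj1 hj2
    -- the case where `t` is in the segment `j`
    have step : ∀ j : Fin r, j.val * L ≤ t → t + 1 ≤ (j.val + 1) * L →
        M.state z (t + 1) = if ω (Sum.inl j) = true then M.state x (t + 1)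
          else M.state y (t + 1) := by
      intro j h1 h2
      have h3 := ih (by omega) j h1 (by omega)
      have h4 : t / L = j.val := by
        rw [Nat.div_eq_iff hL]
        have h5 : (j.val + 1) * L = j.val * L + L := by ring
        omega
      show M.next t (M.state z t) (z (M.query t (M.state z t))) = _
      rw [h3]
      by_cases hω : ω (Sum.inl j) = true
      · rw [if_pos hω, if_pos hω, hz1 _ ⟨j, mem_fil.2 ⟨t, by omega, h4, rfl⟩, hω⟩]
        rfl
      · rw [if_neg hω, if_neg hω, hz2 _ ⟨j, mem_fil.2 ⟨t, by omega, h4, rfl⟩, by simpa using hω⟩]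
        rfl
    by_cases h : j.val * L ≤ t
    · exact step j h hj2
    · have hj : j.val * L = t + 1 := by omega
      have hj0 : 0 < j.val := by
        rcases Nat.eq_zero_or_pos j.val with h0 | h0
        · rw [h0, zero_mul] at hj
          omega
        · exact h0
      have h5 := step ⟨j.val - 1, by omega⟩ (by
        show (j.val - 1) * L ≤ t
        have : (j.val - 1 + 1) * L = (j.val - 1) * L + L := by ring
        rw [Nat.sub_add_cancel hj0] at this
        omega) (by
        show t + 1 ≤ (j.val - 1 + 1) * L
        rw [Nat.sub_add_cancel hj0]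
        omega)
      have h6 := hb j.val (by omega)
      rw [hj] at h6
      rw [h5, h6, ite_self, ite_self]

/-- which cells the mixed run reads -/
theorem segs_mix (M : Mach I A V) {T L r : ℕ} (hL : 0 < L) (ω : Oc r I) (x y z : I → A)
    (hb : ∀ j, j * L ≤ T → M.state x (j * L) = M.state y (j * L))
    (hz1 : ∀ e, (∃ j ∈ segs M T L r x e, ω (Sum.inl j) = true) → z e = x e)
    (hz2 : ∀ e, (∃ j ∈ segs M T L r y e, ω (Sum.inl j) = false) → z e = y e) (e : I) (j : Fin r) :
    j ∈ segs M T L r z e ↔
      if ω (Sum.inl j) = true then j ∈ segs M T L r x e else j ∈ segs M T L r y e := by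
  have key : ∀ t, t < T → t / L = j.val → M.state z t =
      if ω (Sum.inl j) = true then M.state x t else M.state y t := by
    intro t ht htj
    have h1 := (Nat.div_eq_iff hL).1 htj
    refine state_mix M hL ω x y z hb hz1 hz2 t ht.le j h1.1 ?_
    have : (j.val + 1) * L = j.val * L + L := by ring
    omega
  by_cases hω : ω (Sum.inl j) = true
  · rw [if_pos hω]
    unfold segs
    rw [mem_fil, mem_fil]
    refine exists_congr fun t => and_congr_right fun ht => and_congr_right fun htj => ?_
    rw [key t ht htj, if_pos hω]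
  · rw [if_neg hω]
    unfold segs
    rw [mem_fil, mem_fil]
    refine exists_congr fun t => and_congr_right fun ht => and_congr_right fun htj => ?_
    rw [key t ht htj, if_neg hω]

/-- the set of the cells of colour `c` -/
noncomputable def FC [Fintype I] (M : Mach I A V) (T L r : ℕ) (ω : Oc r I) (c : Bool)
    (x : I → A) : Finset I := fil fun e => inC c (segs M T L r x) ω e

theorem mem_FC [Fintype I] {M : Mach I A V} {T L r : ℕ} {ω : Oc r I} {c : Bool} {x : I → A}
    {e : I} : e ∈ FC M T L r ω c x ↔ inC c (segs M T L r x) ω e := mem_fil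

theorem FC_disjoint [Fintype I] [DecidableEq I] (M : Mach I A V) (T L r : ℕ) (ω : Oc r I)
    (x y : I → A) : Disjoint (FC M T L r ω true x) (FC M T L r ω false y) := by
  rw [Finset.disjoint_left]
  intro e h1 h2
  have h3 := (mem_FC.1 h1).1
  rw [(mem_FC.1 h2).1] at h3
  exact Bool.false_ne_true h3

/-- the classes are closed under mixing -/
theorem closed_class [Fintype I] [DecidableEq I] (M : Mach I A V) {T L r : ℕ} (hL : 0 < L)
    (hT : T ≤ r * L) (ω : Oc r I) (b : Fin (r + 1) → V) (P Q : Finset I) :
    Closed P Q fun x => ((∀ j : Fin (r + 1), M.state x (min (j.val * L) T) = b j) ∧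
      FC M T L r ω true x = P ∧ FC M T L r ω false x = Q) ∧ M.Accepts T x := by
  rintro x y ⟨⟨hx1, hx2, hx3⟩, hx4⟩ ⟨⟨hy1, hy2, hy3⟩, hy4⟩ hxy
  set z : I → A := fun i => if i ∈ P then x i else y i with hz
  have hb : ∀ j, j * L ≤ T → M.state x (j * L) = M.state y (j * L) := by
    intro j hj
    have hjr : j ≤ r ∨ r < j := le_or_gt j r
    rcases hjr with h | h
    · have h1 := hx1 ⟨j, by omega⟩
      have h2 := hy1 ⟨j, by omega⟩
      simp only at h1 h2
      rw [min_eq_left hj] at h1 h2
      rw [h1, h2]
    · have h3 : (r + 1) * L ≤ j * L := Nat.mul_le_mul_right L h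
      have h4 : (r + 1) * L = r * L + L := by ring
      omega
  have hz1 : ∀ e, (∃ j ∈ segs M T L r x e, ω (Sum.inl j) = true) → z e = x e := by
    rintro e ⟨j, hj, hω⟩
    rw [hz]
    simp only
    by_cases hP : e ∈ P
    · rw [if_pos hP]
    · rw [if_neg hP]
      have hQ : e ∉ Q := by
        intro hQ
        rw [← hx3, mem_FC] at hQ
        have := hQ.2 j hj
        rw [hω] at this
        exact Bool.false_ne_true this.symm
      exact (hxy e hP hQ).symm
  have hz2 : ∀ e, (∃ j ∈ segs M T L r y e, ω (Sum.inl j) = false) → z e = y e := by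
    rintro e ⟨j, hj, hω⟩
    rw [hz]
    simp only
    rw [if_neg]
    intro hP
    rw [← hy2, mem_FC] at hP
    have := hP.2 j hj
    rw [hω] at this
    exact Bool.false_ne_true this
  have hst := state_mix M hL ω x y z hb hz1 hz2
  have hsg := segs_mix M hL ω x y z hb hz1 hz2
  -- states at the boundaries
  have hbd : ∀ t ≤ T, M.state x t = M.state y t → M.state z t = M.state x t := by
    intro t ht hxy'
    rcases Nat.eq_zero_or_pos r with h0 | h0
    · rw [h0, zero_mul] at hT
      have : t = 0 := by omega
      subst this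
      rfl
    · have h1 : min (t / L) (r - 1) < r := by omega
      have h2 := hst t ht ⟨min (t / L) (r - 1), h1⟩
        ((Nat.mul_le_mul_right L (min_le_left _ _)).trans (Nat.div_mul_le_self t L)) (by
          show t ≤ (min (t / L) (r - 1) + 1) * L
          rcases le_total (t / L) (r - 1) with h | h
          · rw [min_eq_left h]
            have h5 := Nat.div_add_mod t L
            have h6 := Nat.mod_lt t hL
            have h7 : (t / L + 1) * L = L * (t / L) + L := by ring
            omega
          · rw [min_eq_right h, Nat.sub_add_cancel h0]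
            exact ht.trans hT)
      rw [h2, ← hxy', ite_self]
  have hbT : M.state x T = M.state y T := by
    have h1 := hx1 ⟨r, by omega⟩
    have h2 := hy1 ⟨r, by omega⟩
    simp only at h1 h2
    rw [min_eq_right hT] at h1 h2
    rw [h1, h2]
  refine ⟨⟨fun j => ?_, ?_, ?_⟩, ?_⟩
  · rw [hbd _ (min_le_right _ _) (by rw [hx1 j, hy1 j]), hx1 j]
  · rw [← hy2]
    ext e
    rw [mem_FC, mem_FC]
    unfold inC
    refine and_congr_right fun _ => ⟨fun h j hj => ?_, fun h j hj => ?_⟩
    · by_contra hω
      have h1 := (hsg e j).2 (by rw [if_neg hω]; exact hj)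
      exact hω (h j h1)
    · by_contra hω
      have h1 := (hsg e j).1 hj
      rw [if_neg hω] at h1
      exact hω (h j h1)
  · rw [← hx3]
    ext e
    rw [mem_FC, mem_FC]
    unfold inC
    refine and_congr_right fun _ => ⟨fun h j hj => ?_, fun h j hj => ?_⟩
    · by_contra hω
      have hω' : ω (Sum.inl j) = true := by simpa using hω
      have h1 := (hsg e j).2 (by rw [if_pos hω']; exact hj)
      exact hω (h j h1)
    · by_contra hω
      have hω' : ω (Sum.inl j) = true := by simpa using hω
      have h1 := (hsg e j).1 hj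
      rw [if_pos hω'] at h1
      exact hω (h j h1)
  · show M.acc (M.state z T)
    rw [hbd T le_rfl hbT]
    exact hx4

end Pool.Agent.Lib_helper26.TQ
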